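import Pool.Agent.Lib.MP_d78df2_co.Hall

/-!
Greedy extension of a good start to `r` vertices, and the finishing lemma.
-/

namespace Pool.Agent.Lib.MP_d78df2_co

open Finset

theorem greedy {V : Type*} [Fintype V] [DecidableEq V] (X : V → V → ℝ)
    (hsymm : ∀ u v, X u v = X v u) (w : V → ℝ) (hw0 : ∀ v, 0 ≤ w v)
    (t : ℝ) (hμ : ∀ v, 0 < w v → ∑ u, X u v * w u ≤ t * ∑ u, w u)
    (p0 : ℕ → V) (q0 : ℕ)
    (h0 : ∑ i ∈ range q0, ∑ u, X u (p0 i) * w u < q0 * (t * ∑ u, w u)) (J : ℕ) (hJ : q0 ≤ J) :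
    ∃ p : ℕ → V, (∀ i < q0, p i = p0 i) ∧
      (∑ i ∈ range J, ∑ u, X u (p i) * w u < J * (t * ∑ u, w u)) ∧
      ∀ j, q0 ≤ j → j < J → ∑ i ∈ range j, X (p i) (p j) < j * t := by
  classical
  induction J, hJ using Nat.le_induction with
  | base =>
    exact ⟨p0, fun _ _ => rfl, h0, fun j h1 h2 => by omega⟩
  | succ J hJ ih =>
    obtain ⟨p, hp1, hp2, hp3⟩ := ih
    -- choose the next vertex
    obtain ⟨v, hv, hv2⟩ : ∃ v, 0 < w v ∧ ∑ i ∈ range J, X (p i) v < J * t := by
      by_contra hcon
      push Not at hcon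
      have h1 : ∑ v, (J * t) * w v ≤ ∑ v, (∑ i ∈ range J, X (p i) v) * w v := by
        apply Finset.sum_le_sum
        intro v _
        rcases (hw0 v).lt_or_eq with h | h
        · exact mul_le_mul_of_nonneg_right (hcon v h) h.le
        · rw [← h]; simp
      have h2 : ∑ v, (∑ i ∈ range J, X (p i) v) * w v
          = ∑ i ∈ range J, ∑ u, X u (p i) * w u := by
        rw [Finset.sum_comm]
        refine Finset.sum_congr rfl fun v _ => ?_
        rw [Finset.sum_mul]
        refine Finset.sum_congr rfl fun i _ => ?_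
        rw [hsymm]
      rw [h2, ← Finset.mul_sum] at h1
      linarith
    refine ⟨Function.update p J v, ?_, ?_, ?_⟩
    · intro i hi
      rw [Function.update_of_ne (by omega), hp1 i hi]
    · rw [Finset.sum_range_succ, Function.update_self]
      have h1 : ∑ i ∈ range J, ∑ u, X u (Function.update p J v i) * w u
          = ∑ i ∈ range J, ∑ u, X u (p i) * w u := by
        refine Finset.sum_congr rfl fun i hi => ?_
        rw [Function.update_of_ne (by rw [mem_range] at hi; omega)]
      rw [h1]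
      have h2 := hμ v hv
      push_cast
      linarith
    · intro j hj1 hj2
      rcases Nat.lt_succ_iff_lt_or_eq.1 hj2 with h | h
      · have h1 : ∑ i ∈ range j, X (Function.update p J v i) (Function.update p J v j)
            = ∑ i ∈ range j, X (p i) (p j) := by
          refine Finset.sum_congr rfl fun i hi => ?_
          rw [Function.update_of_ne (by rw [mem_range] at hi; omega),
            Function.update_of_ne (by omega)]
        rw [h1]
        exact hp3 j hj1 h
      · subst h
        have h1 : ∑ i ∈ range j, X (Function.update p j v i) (Function.update p j v j)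
            = ∑ i ∈ range j, X (p i) v := by
          refine Finset.sum_congr rfl fun i hi => ?_
          rw [Function.update_of_ne (by rw [mem_range] at hi; omega), Function.update_self]
        rw [h1]
        exact hv2

theorem finish {V C A : Type*} [Fintype V] [DecidableEq V] [Fintype C] [DecidableEq C]
    [DecidableEq A] {r : ℕ} (hr : 100 ≤ r)
    (hC : Fintype.card C = r.choose 2) (miss : C → V → V → Prop)
    [∀ c u v, Decidable (miss c u v)]
    (hmsymm : ∀ c u v, miss c u v → miss c v u)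
    (X : V → V → ℝ)
    (hX : ∀ u v, X u v = ((univ.filter fun c => miss c u v).card : ℝ) / (r.choose 2 : ℕ))
    (w : V → ℝ) (hw0 : ∀ v, 0 ≤ w v)
    (hμ : ∀ v, 0 < w v → ∑ u, X u v * w u ≤ 1 / ((r : ℝ) - 1) * ∑ u, w u)
    (I : Finset A) (pt : A → V)
    (hI1 : ∀ a ∈ I, ∀ b ∈ I, a ≠ b → X (pt a) (pt b) < 1 / 8)
    (hI2 : ∑ a ∈ I, ∑ u, X u (pt a) * w u < I.card * (1 / ((r : ℝ) - 1) * ∑ u, w u))
    (hI3 : (I.card : ℝ) ^ 2 ≤ 16.1 * r) (hI4 : I.card ≤ r)
    (T : C → Finset (A × A)) (hT1 : ∀ c, 2 * r ≤ (T c).card)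
    (hT2 : ∀ c, ∀ q ∈ T c, q.1 ∈ I ∧ q.2 ∈ I ∧ ¬ miss c (pt q.1) (pt q.2))
    (hT3 : ∀ c, ∀ q ∈ T c, (q.2, q.1) ∉ T c) :
    ∃ (p : Fin r → V) (φ : Pr r → C), Function.Injective φ ∧
      ∀ q, ¬ miss (φ q) (p q.1.1) (p q.1.2) := by
  classical
  have hsymm : ∀ u v, X u v = X v u := by
    intro u v
    rw [hX, hX]
    congr 2
    refine congrArg Finset.card ?_
    ext c
    simp only [mem_filter, mem_univ, true_and]
    exact ⟨hmsymm c u v, hmsymm c v u⟩
  have hrR : (100 : ℝ) ≤ r := by exact_mod_cast hr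
  -- enumeration of I
  set q0 := I.card with hq0
  have hVne : Nonempty V := by
    by_contra hne
    rw [not_nonempty_iff] at hne
    have hIe : I = ∅ := by
      rw [Finset.eq_empty_iff_forall_notMem]
      intro a _
      exact hne.elim (pt a)
    rw [hIe] at hI2
    simp at hI2
  obtain ⟨v0⟩ := hVne
  set e : Fin q0 ≃ I := (Finset.equivFin I).symm with he
  set p0 : ℕ → V := fun i => if h : i < q0 then pt (e ⟨i, h⟩) else v0 with hp0
  have hp0v : ∀ (i : ℕ) (h : i < q0), p0 i = pt (e ⟨i, h⟩) := by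
    intro i h; simp only [hp0, h, dif_pos]
  have h0 : ∑ i ∈ range q0, ∑ u, X u (p0 i) * w u < q0 * (1 / ((r : ℝ) - 1) * ∑ u, w u) := by
    have h1 : ∑ i ∈ range q0, ∑ u, X u (p0 i) * w u = ∑ a ∈ I, ∑ u, X u (pt a) * w u := by
      rw [Finset.sum_range (fun i => ∑ u, X u (p0 i) * w u)]
      rw [← Finset.sum_coe_sort I (fun a => ∑ u, X u (pt a) * w u)]
      refine Fintype.sum_equiv e _ _ ?_
      intro i
      rw [hp0v i i.2]
    rw [h1]; exact hI2
  obtain ⟨p, hp1, _, hp3⟩ := greedy X hsymm w hw0 (1 / ((r : ℝ) - 1)) hμ p0 q0 h0 r hI4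
  obtain ⟨φ, hφ1, hφ2⟩ := hall_colouring hr hC miss X hX p q0 hI4 (by
    intro i j hij hj
    rw [hp1 i (by omega), hp1 j hj, hp0v i (by omega), hp0v j hj]
    apply hI1 _ (e ⟨i, by omega⟩).2 _ (e ⟨j, hj⟩).2
    intro h
    have h2 := e.injective (Subtype.ext h)
    simp only [Fin.mk.injEq] at h2
    omega) (by
    intro j hj1 hj2
    have := hp3 j hj1 hj2
    rwa [mul_one_div] at this) (by
    intro c
    refine le_trans (hT1 c) ?_
    -- the map
    set ix : A → ℕ := fun a => if h : a ∈ I then ((e.symm ⟨a, h⟩ : Fin q0) : ℕ) else 0 with hix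
    have hixlt : ∀ a ∈ I, ix a < q0 := by
      intro a ha
      simp only [hix, ha, dif_pos]
      exact (e.symm ⟨a, ha⟩).2
    have hixp : ∀ a ∈ I, p (ix a) = pt a := by
      intro a ha
      rw [hp1 _ (hixlt a ha), hp0v _ (hixlt a ha)]
      congr 1
      simp only [hix, ha, dif_pos, Fin.eta, Equiv.apply_symm_apply]
    have hixinj : ∀ a ∈ I, ∀ b ∈ I, ix a = ix b → a = b := by
      intro a ha b hb h
      simp only [hix, ha, hb, dif_pos] at h
      have := e.symm.injective (Fin.ext h)
      simpa using this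
    refine Finset.card_le_card_of_injOn (fun q : A × A =>
      if ix q.1 < ix q.2 then (ix q.1, ix q.2) else (ix q.2, ix q.1)) ?_ ?_
    · intro q hq
      rw [mem_coe] at hq
      obtain ⟨h1, h2, h3⟩ := hT2 c q hq
      have hne : ix q.1 ≠ ix q.2 := by
        intro h
        have := hixinj _ h1 _ h2 h
        have h5 := hT3 c q hq
        apply h5
        have : (q.2, q.1) = q := Prod.ext this.symm this
        rwa [this]
      have hl1 := hixlt _ h1
      have hl2 := hixlt _ h2
      simp only [coe_filter, mem_product, mem_range, Set.mem_ofPred_eq]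
      split_ifs with hlt
      · refine ⟨⟨hl1, hl2⟩, hlt, ?_⟩
        simp only
        rw [hixp _ h1, hixp _ h2]
        exact h3
      · refine ⟨⟨hl2, hl1⟩, by simp only; omega, ?_⟩
        simp only
        rw [hixp _ h1, hixp _ h2]
        intro h
        exact h3 (hmsymm _ _ _ h)
    · intro q hq q' hq' heq
      rw [mem_coe] at hq hq'
      obtain ⟨h1, h2, _⟩ := hT2 c q hq
      obtain ⟨h1', h2', _⟩ := hT2 c q' hq'
      simp only at heq
      have key1 : ix q.1 = ix q'.1 → ix q.2 = ix q'.2 → q = q' := fun ha hb =>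
        Prod.ext (hixinj _ h1 _ h1' ha) (hixinj _ h2 _ h2' hb)
      have key2 : ix q.1 = ix q'.2 → ix q.2 = ix q'.1 → q = q' := by
        intro ha hb
        exfalso
        have ha' := hixinj _ h1 _ h2' ha
        have hb' := hixinj _ h2 _ h1' hb
        apply hT3 c q' hq'
        have : (q'.2, q'.1) = q := Prod.ext ha'.symm hb'.symm
        rwa [this]
      split_ifs at heq with hA hB hB <;> simp only [Prod.mk.injEq] at heq
      · exact key1 heq.1 heq.2
      · exact key2 heq.1 heq.2
      · exact key2 heq.2 heq.1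
      · exact key1 heq.2 heq.1) hI3
  exact ⟨fun i => p i, φ, hφ1, hφ2⟩

end Pool.Agent.Lib.MP_d78df2_co
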