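import Mathlib

/-!
Hall's theorem for the pairs of a well-spread vertex sequence.
-/

namespace Pool.Agent.Lib.MP_d78df2_co

open Finset

/-- Ordered pairs `a < b` in `Fin r`. -/
abbrev Pr (r : ℕ) : Type := {q : Fin r × Fin r // q.1 < q.2}

theorem card_Pr (r : ℕ) : Fintype.card (Pr r) = r.choose 2 := by
  classical
  have h1 : Fintype.card (Pr r) = ((univ : Finset (Fin r × Fin r)).filter fun q => q.1 < q.2).card := by
    rw [Fintype.card_subtype]
  have h2 : ((univ : Finset (Fin r × Fin r)).filter fun q => q.2 < q.1).card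
      = ((univ : Finset (Fin r × Fin r)).filter fun q => q.1 < q.2).card := by
    refine Finset.card_bij (fun q _ => (q.2, q.1)) ?_ ?_ ?_
    · intro q hq; simpa using hq
    · intro a _ b _ h
      simp only [Prod.mk.injEq] at h
      exact Prod.ext h.2 h.1
    · intro b hb
      exact ⟨(b.2, b.1), by simpa using hb, rfl⟩
  have h3 : (univ : Finset (Fin r)).offDiag
      = ((univ : Finset (Fin r × Fin r)).filter fun q => q.1 < q.2) ∪
        ((univ : Finset (Fin r × Fin r)).filter fun q => q.2 < q.1) := by
    ext q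
    simp only [mem_offDiag, mem_univ, true_and, mem_union, mem_filter]
    exact ne_iff_lt_or_gt
  have h4 : Disjoint ((univ : Finset (Fin r × Fin r)).filter fun q => q.1 < q.2)
        ((univ : Finset (Fin r × Fin r)).filter fun q => q.2 < q.1) := by
    rw [Finset.disjoint_filter]
    intro q _ h h'
    exact absurd h (not_lt.2 h'.le)
  have h5 := congrArg Finset.card h3
  rw [Finset.card_union_of_disjoint h4, h2, Finset.offDiag_card, Finset.card_univ,
    Fintype.card_fin] at h5
  rw [h1, Nat.choose_two_right]
  have h6 : r * r - r = r * (r - 1) := by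
    rw [Nat.mul_sub, mul_one]
  rw [h6] at h5
  omega

theorem sum_Pr (r : ℕ) (g : ℕ → ℕ → ℝ) :
    ∑ q : Pr r, g q.1.1 q.1.2 = ∑ j ∈ range r, ∑ i ∈ range j, g i j := by
  classical
  have h1 : ∑ q : Pr r, g q.1.1 q.1.2
      = ∑ q ∈ (univ : Finset (Fin r × Fin r)).filter (fun q => q.1 < q.2), g q.1 q.2 := by
    rw [← Finset.sum_subtype (p := fun q : Fin r × Fin r => q.1 < q.2)
      ((univ : Finset (Fin r × Fin r)).filter (fun q => q.1 < q.2)) (by simp)
      (fun q : Fin r × Fin r => g q.1 q.2)]
  have h2 : ∑ q ∈ (univ : Finset (Fin r × Fin r)).filter (fun q => q.1 < q.2), g q.1 q.2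
      = ∑ q ∈ (range r).sigma (fun j => range j), g q.2 q.1 := by
    refine Finset.sum_bij' (fun q _ => (⟨(q.2 : ℕ), (q.1 : ℕ)⟩ : (_ : ℕ) × ℕ))
      (fun q hq => ((⟨q.2, by
        simp only [mem_sigma, mem_range] at hq; omega⟩ : Fin r), (⟨q.1, by
        simp only [mem_sigma, mem_range] at hq; omega⟩ : Fin r))) ?_ ?_ ?_ ?_ ?_
    · intro q hq
      simp only [mem_filter, mem_univ, true_and] at hq
      simp only [mem_sigma, mem_range]
      exact ⟨q.2.2, hq⟩
    · intro q hq
      simp only [mem_sigma, mem_range] at hq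
      simp only [mem_filter, mem_univ, true_and]
      exact hq.2
    · intro q _
      rfl
    · intro q _
      rfl
    · intro q _
      rfl
  rw [h1, h2, Finset.sum_sigma]

theorem hall_colouring {V C : Type*} [Fintype C] [DecidableEq C] {r : ℕ} (hr : 100 ≤ r)
    (hC : Fintype.card C = r.choose 2) (miss : C → V → V → Prop)
    [∀ c u v, Decidable (miss c u v)]
    (X : V → V → ℝ)
    (hX : ∀ u v, X u v = ((univ.filter fun c => miss c u v).card : ℝ) / (r.choose 2 : ℕ))
    (p : ℕ → V) (q0 : ℕ) (hq0 : q0 ≤ r)
    (ha : ∀ i j, i < j → j < q0 → X (p i) (p j) < 1 / 8)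
    (hb : ∀ j, q0 ≤ j → j < r → ∑ i ∈ range j, X (p i) (p j) < j / ((r : ℝ) - 1))
    (hc : ∀ c, 2 * r ≤
      ((range q0 ×ˢ range q0).filter fun q => q.1 < q.2 ∧ ¬ miss c (p q.1) (p q.2)).card)
    (hd : (q0 : ℝ) ^ 2 ≤ 16.1 * r) :
    ∃ φ : Pr r → C, Function.Injective φ ∧ ∀ q, ¬ miss (φ q) (p q.1.1) (p q.1.2) := by
  classical
  set k : ℕ := r.choose 2 with hk
  have hrR : (100 : ℝ) ≤ r := by exact_mod_cast hr
  have hkR : (k : ℝ) = r * (r - 1) / 2 := by
    rw [hk, Nat.choose_two_right, Nat.cast_div_charZero (by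
      exact (Nat.even_mul_pred_self r).two_dvd), Nat.cast_mul, Nat.cast_sub (by omega)]
    norm_num
  have hkpos : (0 : ℝ) < k := by rw [hkR]; nlinarith
  have hX0 : ∀ u v, 0 ≤ X u v := fun u v => by rw [hX]; positivity
  -- total
  have htot : ∑ q : Pr r, X (p q.1.1) (p q.1.2) ≤ 1.51 * r := by
    rw [sum_Pr r (fun i j => X (p i) (p j))]
    have h1 : ∀ j ∈ range r, ∑ i ∈ range j, X (p i) (p j) ≤
        (if j < q0 then (j : ℝ) / 8 else 0) + (j : ℝ) / (r - 1) := by
      intro j hj
      rw [mem_range] at hj
      split_ifs with h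
      · have h2 : ∑ i ∈ range j, X (p i) (p j) ≤ ∑ i ∈ range j, (1 / 8 : ℝ) :=
          Finset.sum_le_sum fun i hi => (ha i j (mem_range.1 hi) h).le
        rw [Finset.sum_const, card_range, nsmul_eq_mul] at h2
        have h3 : (0 : ℝ) ≤ (j : ℝ) / (r - 1) := div_nonneg (Nat.cast_nonneg _) (by linarith)
        linarith
      · have := hb j (not_lt.1 h) hj
        linarith
    refine le_trans (Finset.sum_le_sum h1) ?_
    rw [Finset.sum_add_distrib]
    have h4 : ∑ j ∈ range r, (if j < q0 then (j : ℝ) / 8 else 0) = ∑ j ∈ range q0, (j : ℝ) / 8 := by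
      rw [← Finset.sum_filter]
      refine Finset.sum_congr ?_ fun _ _ => rfl
      ext j; simp only [mem_filter, mem_range]; omega
    have h5 : ∀ n : ℕ, ∑ j ∈ range n, (j : ℝ) = n * (n - 1) / 2 := by
      intro n
      induction n with
      | zero => simp
      | succ n ih => rw [Finset.sum_range_succ, ih]; push_cast; ring
    rw [h4, ← Finset.sum_div, ← Finset.sum_div, h5, h5]
    have h6 : (r : ℝ) * (r - 1) / 2 / (r - 1) = r / 2 := by
      have : (r : ℝ) - 1 ≠ 0 := by linarith
      field_simp
    rw [h6]
    have : (0 : ℝ) ≤ q0 := Nat.cast_nonneg _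
    nlinarith
  -- present sets
  set A : Pr r → Finset C := fun q => univ.filter fun c => ¬ miss c (p q.1.1) (p q.1.2) with hA
  have hall : ∀ s : Finset (Pr r), s.card ≤ (s.biUnion A).card := by
    intro s
    by_contra hcon
    push Not at hcon
    set F : Finset C := (s.biUnion A)ᶜ with hF
    have hFcard : F.card + (s.biUnion A).card = k := by
      rw [hF, add_comm, Finset.card_add_card_compl, hC]
    have hscard : s.card ≤ k := by
      have := Finset.card_le_univ s
      rwa [card_Pr] at this
    have hmiss : ∀ q ∈ s, ∀ c ∈ F, miss c (p q.1.1) (p q.1.2) := by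
      intro q hq c hc
      rw [hF, mem_compl, mem_biUnion] at hc
      by_contra hn
      exact hc ⟨q, hq, by simp only [hA, mem_filter, mem_univ, true_and]; exact hn⟩
    have hxq : ∀ q ∈ s, (F.card : ℝ) / k ≤ X (p q.1.1) (p q.1.2) := by
      intro q hq
      rw [hX]
      apply div_le_div_of_nonneg_right _ hkpos.le
      exact_mod_cast Finset.card_le_card (fun c hc => by
        simp only [mem_filter, mem_univ, true_and]; exact hmiss q hq c hc)
    have hef : (s.card : ℝ) * F.card ≤ 1.51 * r * k := by
      have h1 : ∑ q ∈ s, (F.card : ℝ) / k ≤ ∑ q ∈ s, X (p q.1.1) (p q.1.2) :=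
        Finset.sum_le_sum hxq
      have h2 : ∑ q ∈ s, X (p q.1.1) (p q.1.2) ≤ ∑ q : Pr r, X (p q.1.1) (p q.1.2) :=
        Finset.sum_le_univ_sum_of_nonneg (fun q => hX0 _ _)
      rw [Finset.sum_const, nsmul_eq_mul] at h1
      have h3 : (s.card : ℝ) * (F.card / k) ≤ 1.51 * r := by linarith
      have h4 : (s.card : ℝ) * F.card = (s.card * (F.card / k)) * k := by
        field_simp
      rw [h4]
      exact mul_le_mul_of_nonneg_right h3 hkpos.le
    have hsum : k + 1 ≤ s.card + F.card := by omega
    have hsumR : (k : ℝ) + 1 ≤ s.card + F.card := by exact_mod_cast hsum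
    rcases le_or_gt (2 * r) F.card with hf | hf
    · rcases le_or_gt (2 * r) s.card with he | he
      · -- both large
        have heR : 2 * (r : ℝ) ≤ s.card := by exact_mod_cast he
        have hfR : 2 * (r : ℝ) ≤ F.card := by exact_mod_cast hf
        have h1 : 0 ≤ ((s.card : ℝ) - 2 * r) * (F.card - 2 * r) :=
          mul_nonneg (by linarith) (by linarith)
        have h2 : 2 * (r : ℝ) * (k + 1) - 4 * r ^ 2 ≤ 1.51 * r * k := by
          nlinarith
        have h3 : (r : ℝ) * (0.49 * k) ≤ r * (4 * r) := by nlinarith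
        have h4 : 0.49 * (k : ℝ) ≤ 4 * r := le_of_mul_le_mul_left h3 (by linarith)
        rw [hkR] at h4
        have h5 : (r : ℝ) * (0.245 * (r - 1)) ≤ r * 4 := by nlinarith
        have h6 : 0.245 * ((r : ℝ) - 1) ≤ 4 := le_of_mul_le_mul_left h5 (by linarith)
        linarith
      · -- few pairs
        have heR : (s.card : ℝ) + 1 ≤ 2 * r := by exact_mod_cast he
        have hXhalf : ∀ q ∈ s, 1 - ((s.card : ℝ) - 1) / k ≤ X (p q.1.1) (p q.1.2) := by
          intro q hq
          refine le_trans ?_ (hxq q hq)
          rw [le_div_iff₀ hkpos, sub_mul, div_mul_cancel₀ _ hkpos.ne']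
          linarith
        have hbig : (1 / 2 : ℝ) < 1 - ((s.card : ℝ) - 1) / k := by
          have : ((s.card : ℝ) - 1) / k < 1 / 2 := by
            rw [div_lt_iff₀ hkpos, hkR]
            nlinarith
          linarith
        -- all steps ≥ q0
        have hstep : ∀ q ∈ s, q0 ≤ (q.1.2 : ℕ) := by
          intro q hq
          by_contra hlt
          push Not at hlt
          have h1 := ha q.1.1 q.1.2 q.2 hlt
          have h2 := hXhalf q hq
          linarith
        have hjr : ∀ q : Pr r, ((q.1.2 : ℕ) : ℝ) / ((r : ℝ) - 1) ≤ 1 := by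
          intro q
          rw [div_le_one (by linarith)]
          have : (q.1.2 : ℕ) + 1 ≤ r := q.1.2.2
          have : ((q.1.2 : ℕ) : ℝ) + 1 ≤ r := by exact_mod_cast this
          linarith
        -- at most one pair per step
        have hinj : Set.InjOn (fun q : Pr r => q.1.2) (s : Set (Pr r)) := by
          intro q hq q' hq' heq
          simp only at heq
          by_contra hne
          have hne1 : (q.1.1 : ℕ) ≠ (q'.1.1 : ℕ) := by
            intro h
            apply hne
            apply Subtype.ext
            exact Prod.ext (Fin.ext h) heq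
          have h1 := hb q.1.2 (hstep q hq) q.1.2.2
          have h2 : X (p q.1.1) (p q.1.2) + X (p q'.1.1) (p q.1.2)
              ≤ ∑ i ∈ range q.1.2, X (p i) (p q.1.2) := by
            rw [← Finset.sum_pair hne1 (f := fun i => X (p i) (p q.1.2))]
            apply Finset.sum_le_sum_of_subset_of_nonneg
            · intro i hi
              rw [mem_insert, mem_singleton] at hi
              rw [mem_range]
              rcases hi with rfl | rfl
              · exact q.2
              · rw [heq]; exact q'.2
            · intro i _ _; exact hX0 _ _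
          have h3 := hXhalf q hq
          have h4 := hXhalf q' hq'
          rw [← heq] at h4
          have h5 := hjr q
          linarith
        have hspos : 0 < s.card := by omega
        obtain ⟨q, hq, hqmin⟩ := Finset.exists_min_image s (fun q : Pr r => q.1.2)
          (Finset.card_pos.1 hspos)
        have himg : (s.image (fun q : Pr r => q.1.2)).card = s.card :=
          Finset.card_image_of_injOn hinj
        have hsub : s.image (fun q : Pr r => q.1.2) ⊆ Finset.Ici q.1.2 := by
          intro j hj
          rw [mem_image] at hj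
          obtain ⟨q', hq', rfl⟩ := hj
          rw [Finset.mem_Ici]
          exact hqmin q' hq'
        have hcard := Finset.card_le_card hsub
        rw [himg, Fin.card_Ici] at hcard
        have h1 := hb q.1.2 (hstep q hq) q.1.2.2
        have h2 : X (p q.1.1) (p q.1.2) ≤ ∑ i ∈ range q.1.2, X (p i) (p q.1.2) :=
          Finset.single_le_sum (f := fun i => X (p i) (p q.1.2)) (fun i _ => hX0 _ _)
            (mem_range.2 q.2)
        have h3 := hXhalf q hq
        have h4 : (s.card : ℝ) + ((q.1.2 : ℕ) : ℝ) ≤ r := by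
          have : s.card + (q.1.2 : ℕ) ≤ r := by
            have := q.1.2.2
            omega
          exact_mod_cast this
        have h5 : 1 - ((s.card : ℝ) - 1) / k < ((q.1.2 : ℕ) : ℝ) / ((r : ℝ) - 1) := by linarith
        have hs1 : (1 : ℝ) ≤ s.card := by exact_mod_cast hspos
        have h6 : ((s.card : ℝ) - 1) / k ≤ ((s.card : ℝ) - 1) / (r - 1) := by
          apply div_le_div_of_nonneg_left (by linarith) (by linarith)
          rw [hkR]; nlinarith
        have h7 : ((q.1.2 : ℕ) : ℝ) / ((r : ℝ) - 1) ≤ 1 - ((s.card : ℝ) - 1) / (r - 1) := by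
          rw [div_le_iff₀ (by linarith), sub_mul, div_mul_cancel₀ _ (by linarith : (r : ℝ) - 1 ≠ 0)]
          linarith
        linarith
    · -- few missing colours
      have hFne : F.Nonempty := by
        rw [← Finset.card_pos]; omega
      obtain ⟨c, hcF⟩ := hFne
      have h1 := hc c
      have h2 : ((range q0 ×ˢ range q0).filter
          fun q => q.1 < q.2 ∧ ¬ miss c (p q.1) (p q.2)).card ≤ (sᶜ).card := by
        refine Finset.card_le_card_of_injOn (fun q : ℕ × ℕ =>
          if h : q.1 < q.2 ∧ q.2 < r then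
            (⟨(⟨q.1, by omega⟩, ⟨q.2, h.2⟩), by
              simp only [Fin.mk_lt_mk]; exact h.1⟩ : Pr r)
          else ⟨(⟨0, by omega⟩, ⟨1, by omega⟩), by simp⟩) ?_ ?_
        · intro q hq
          rw [mem_coe, mem_filter, mem_product, mem_range, mem_range] at hq
          have h : q.1 < q.2 ∧ q.2 < r := ⟨hq.2.1, by omega⟩
          simp only [h, and_self, dif_pos, coe_compl, Set.mem_compl_iff, mem_coe]
          intro hs
          exact hq.2.2 (hmiss _ hs c hcF)
        · intro q hq q' hq' heq
          rw [mem_coe, mem_filter, mem_product, mem_range, mem_range] at hq hq'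
          have h : q.1 < q.2 ∧ q.2 < r := ⟨hq.2.1, by omega⟩
          have h' : q'.1 < q'.2 ∧ q'.2 < r := ⟨hq'.2.1, by omega⟩
          simp only [h, h', and_self, dif_pos, Subtype.mk.injEq, Prod.mk.injEq, Fin.mk.injEq] at heq
          exact Prod.ext heq.1 heq.2
      rw [Finset.card_compl, card_Pr] at h2
      omega
  obtain ⟨φ, hφ, hφA⟩ := (Finset.all_card_le_biUnion_card_iff_exists_injective A).1 hall
  refine ⟨φ, hφ, fun q => ?_⟩
  have := hφA q
  simp only [hA, mem_filter, mem_univ, true_and] at this
  exact this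

end Pool.Agent.Lib.MP_d78df2_co
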