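import Mathlib

/-!
Finite product weights and the sampling lemma.
-/

namespace Pool.Agent.Lib.MP_d78df2_co

open Finset

theorem sum_prod_pi {A V : Type*} [Fintype A] [DecidableEq A] [Fintype V] (g : A → V → ℝ) :
    ∑ ω : A → V, ∏ a, g a (ω a) = ∏ a, ∑ v, g a v := by
  classical
  rw [Finset.prod_univ_sum, Fintype.piFinset_univ]

theorem ex_one {A V : Type*} [Fintype A] [DecidableEq A] [Fintype V] (ρ : A → V → ℝ)
    (h1 : ∀ a, ∑ v, ρ a v = 1) : ∑ ω : A → V, ∏ a, ρ a (ω a) = 1 := by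
  rw [sum_prod_pi]
  exact Finset.prod_eq_one fun a _ => h1 a

theorem ex_pair {A V : Type*} [Fintype A] [DecidableEq A] [Fintype V] [DecidableEq V]
    (ρ : A → V → ℝ) (h1 : ∀ a, ∑ v, ρ a v = 1) (a b : A) (hab : a ≠ b) (h : V → V → ℝ) :
    ∑ ω : A → V, (∏ x, ρ x (ω x)) * h (ω a) (ω b) = ∑ u, ∑ v, ρ a u * ρ b v * h u v := by
  classical
  have key : ∀ ω : A → V, (∏ x, ρ x (ω x)) * h (ω a) (ω b)
      = ∑ u, ∑ v, h u v * ∏ x, (ρ x (ω x) * (if x = a then (if ω x = u then 1 else 0) else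
          if x = b then (if ω x = v then 1 else 0) else 1)) := by
    intro ω
    have h2 : ∀ u v, ∏ x, (ρ x (ω x) * (if x = a then (if ω x = u then (1 : ℝ) else 0) else
          if x = b then (if ω x = v then 1 else 0) else 1))
        = (∏ x, ρ x (ω x)) * ((if ω a = u then 1 else 0) * (if ω b = v then 1 else 0)) := by
      intro u v
      rw [Finset.prod_mul_distrib]
      congr 1
      rw [Fintype.prod_eq_mul a b hab]
      · simp only [if_true, if_neg hab.symm]
      · intro x hx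
        rw [if_neg hx.1, if_neg hx.2]
    simp only [h2]
    have h3 : ∀ u, ∑ v, h u v * ((∏ x, ρ x (ω x)) * ((if ω a = u then (1 : ℝ) else 0) *
        (if ω b = v then 1 else 0)))
        = (if ω a = u then (∏ x, ρ x (ω x)) * h u (ω b) else 0) := by
      intro u
      split_ifs with hu
      · rw [Finset.sum_eq_single (ω b)]
        · simp; ring
        · intro v _ hv; rw [if_neg (fun h => hv h.symm)]; ring
        · intro h; exact absurd (Finset.mem_univ _) h
      · simp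
    simp only [h3]
    rw [Finset.sum_ite_eq]
    simp
  simp only [key]
  rw [Finset.sum_comm]
  refine Finset.sum_congr rfl fun u _ => ?_
  rw [Finset.sum_comm]
  refine Finset.sum_congr rfl fun v _ => ?_
  rw [← Finset.mul_sum]
  rw [sum_prod_pi (fun x y => ρ x y * (if x = a then (if y = u then (1 : ℝ) else 0) else
          if x = b then (if y = v then 1 else 0) else 1))]
  rw [Fintype.prod_eq_mul a b hab]
  · simp only [if_true, if_neg hab.symm]
    simp only [mul_ite, mul_one, mul_zero, Finset.sum_ite_eq', Finset.mem_univ, if_true]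
    ring
  · intro x hx
    simp only [if_neg hx.1, if_neg hx.2, mul_one]
    exact h1 x

theorem ex_shift {L K V : Type*} [Fintype L] [DecidableEq L] [Fintype K] [DecidableEq K]
    [AddCommGroup K] [Fintype V] (ρ : L ⊕ (K ⊕ K) → V → ℝ) (h1 : ∀ a, ∑ v, ρ a v = 1)
    (ρ0 : V → ℝ) (hρ0 : ∀ a : K ⊕ K, ρ (Sum.inr a) = ρ0) (g : V → V → ℝ) (s : K) :
    ∑ ω : L ⊕ (K ⊕ K) → V, (∏ x, ρ x (ω x)) *
        ∏ i : K, g (ω (Sum.inr (Sum.inl i))) (ω (Sum.inr (Sum.inr (i + s))))
      = (∑ u, ∑ v, ρ0 u * ρ0 v * g u v) ^ (Fintype.card K) := by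
  classical
  -- split the sum
  have e1 : ∑ ω : L ⊕ (K ⊕ K) → V, (∏ x, ρ x (ω x)) *
        ∏ i : K, g (ω (Sum.inr (Sum.inl i))) (ω (Sum.inr (Sum.inr (i + s))))
      = ∑ p : (L → V) × ((K → V) × (K → V)),
        ((∏ x, ρ (Sum.inl x) (p.1 x)) * ((∏ i, ρ0 (p.2.1 i)) * ∏ i, ρ0 (p.2.2 i))) *
        ∏ i : K, g (p.2.1 i) (p.2.2 (i + s)) := by
    refine Fintype.sum_equiv ((Equiv.sumArrowEquivProdArrow L (K ⊕ K) V).trans
      (Equiv.prodCongr (Equiv.refl _) (Equiv.sumArrowEquivProdArrow K K V))) _ _ ?_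
    intro ω
    rw [Fintype.prod_sum_type, Fintype.prod_sum_type]
    simp only [hρ0]
    rfl
  rw [e1, Fintype.sum_prod_type]
  have e2 : ∀ f : L → V, ∑ q : (K → V) × (K → V),
        ((∏ x, ρ (Sum.inl x) ((f, q).1 x)) * ((∏ i, ρ0 ((f, q).2.1 i)) * ∏ i, ρ0 ((f, q).2.2 i))) *
        ∏ i : K, g ((f, q).2.1 i) ((f, q).2.2 (i + s))
      = (∏ x, ρ (Sum.inl x) (f x)) * (∑ u, ∑ v, ρ0 u * ρ0 v * g u v) ^ (Fintype.card K) := by
    intro f
    rw [Fintype.sum_prod_type]
    have e3 : ∀ τ : K → V, ∑ τ' : K → V, ((∏ x, ρ (Sum.inl x) (f x)) * ((∏ i, ρ0 (τ i)) *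
        ∏ i, ρ0 (τ' i))) * ∏ i : K, g (τ i) (τ' (i + s))
        = (∏ x, ρ (Sum.inl x) (f x)) * ∏ i, ∑ v, ρ0 (τ i) * ρ0 v * g (τ i) v := by
      intro τ
      rw [← sum_prod_pi (fun i v => ρ0 (τ i) * ρ0 v * g (τ i) v), Finset.mul_sum]
      refine Fintype.sum_equiv (Equiv.arrowCongr (Equiv.addRight (-s)) (Equiv.refl V)) _ _ ?_
      intro τ'
      have h5 : ∀ i : K, (Equiv.arrowCongr (Equiv.addRight (-s)) (Equiv.refl V)) τ' i
          = τ' (i + s) := by
        intro i
        simp [Equiv.arrowCongr]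
      simp only [h5]
      have h6 : ∏ i, ρ0 (τ' i) = ∏ i, ρ0 (τ' (i + s)) :=
        (Equiv.prod_comp (Equiv.addRight s) (fun i => ρ0 (τ' i))).symm
      rw [h6, mul_assoc, mul_assoc, ← Finset.prod_mul_distrib, ← Finset.prod_mul_distrib]
      congr 1
      refine Finset.prod_congr rfl fun i _ => ?_
      ring
    simp only [e3]
    rw [← Finset.mul_sum, sum_prod_pi (fun _ u => ∑ v, ρ0 u * ρ0 v * g u v), Finset.prod_const,
      Finset.card_univ]
  simp only [e2]
  rw [← Finset.sum_mul, sum_prod_pi (fun x v => ρ (Sum.inl x) v)]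
  rw [Finset.prod_eq_one fun x _ => h1 (Sum.inl x), one_mul]

theorem sampling {V C K L : Type*} [Fintype V] [DecidableEq V] [Fintype C] [Fintype K]
    [DecidableEq K] [AddCommGroup K] [Fintype L] [DecidableEq L] (M : ℕ)
    (hK : Fintype.card K = 4 * M)
    (σ ρ : V → ℝ) (hσ0 : ∀ v, 0 ≤ σ v) (hρ0 : ∀ v, 0 ≤ ρ v) (hσ1 : ∑ v, σ v = 1)
    (hρ1 : ∑ v, ρ v = 1)
    (poor : V → V → Prop) [DecidableRel poor]
    (miss : C → V → V → Prop) [∀ c u v, Decidable (miss c u v)]
    (hmiss : ∀ c, ∑ u, ∑ v, ρ u * ρ v * (if miss c u v then 1 else 0) ≤ 1 / 64)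
    (a b d : ℝ)
    (ha : ∑ u, ∑ v, σ u * σ v * (if poor u v then 1 else 0) ≤ a)
    (hb : ∑ u, ∑ v, σ u * ρ v * (if poor u v then 1 else 0) ≤ b)
    (hd : ∑ u, ∑ v, ρ u * ρ v * (if poor u v then 1 else 0) ≤ d)
    (_hd0 : 0 ≤ d)
    (hcost : ((Fintype.card L : ℝ) * (Fintype.card L) - Fintype.card L) * a
      + (Fintype.card L : ℝ) * (8 * M) * b + (8 * M) ^ 2 * d / 4200
      + (Fintype.card C : ℝ) * (4 * M) * (1 / 4) ^ M < 1) :
    ∃ (cc : L → V) (τ : K ⊕ K → V), (∀ i, 0 < σ (cc i)) ∧ (∀ x, 0 < ρ (τ x)) ∧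
      (∀ i j, i ≠ j → ¬ poor (cc i) (cc j)) ∧ (∀ i x, ¬ poor (cc i) (τ x)) ∧
      ((univ : Finset (K ⊕ K)).offDiag.filter fun q => poor (τ q.1) (τ q.2)).card < 4200 ∧
      ∀ c s, ((univ : Finset K).filter fun i =>
        miss c (τ (Sum.inl i)) (τ (Sum.inr (i + s)))).card < M := by
  classical
  set ρ' : L ⊕ (K ⊕ K) → V → ℝ := fun x => Sum.elim (fun _ => σ) (fun _ => ρ) x with hρ'
  have h1 : ∀ x, ∑ v, ρ' x v = 1 := by
    rintro (x | x)
    · exact hσ1
    · exact hρ1
  have h0 : ∀ x v, 0 ≤ ρ' x v := by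
    rintro (x | x) v
    · exact hσ0 v
    · exact hρ0 v
  set P : (L ⊕ (K ⊕ K) → V) → ℝ := fun ω => ∏ x, ρ' x (ω x) with hP
  have hP0 : ∀ ω, 0 ≤ P ω := fun ω => Finset.prod_nonneg fun x _ => h0 x _
  have hP1 : ∑ ω, P ω = 1 := ex_one ρ' h1
  set g : C → V → V → ℝ := fun c u v => if miss c u v then 64 else 1 with hg
  set S1 : (L ⊕ (K ⊕ K) → V) → ℝ := fun ω =>
    ∑ q ∈ (univ : Finset L).offDiag, (if poor (ω (Sum.inl q.1)) (ω (Sum.inl q.2)) then 1 else 0)
    with hS1
  set S2 : (L ⊕ (K ⊕ K) → V) → ℝ := fun ω =>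
    ∑ i : L, ∑ x : K ⊕ K, (if poor (ω (Sum.inl i)) (ω (Sum.inr x)) then 1 else 0)
    with hS2
  set S3 : (L ⊕ (K ⊕ K) → V) → ℝ := fun ω =>
    ∑ q ∈ (univ : Finset (K ⊕ K)).offDiag,
      (if poor (ω (Sum.inr q.1)) (ω (Sum.inr q.2)) then 1 else 0)
    with hS3
  set S4 : (L ⊕ (K ⊕ K) → V) → ℝ := fun ω =>
    ∑ c : C, ∑ s : K, ∏ i : K, g c (ω (Sum.inr (Sum.inl i))) (ω (Sum.inr (Sum.inr (i + s))))
    with hS4
  have hE1 : ∑ ω, P ω * S1 ω ≤ ((Fintype.card L : ℝ) * (Fintype.card L) - Fintype.card L) * a := by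
    have : ∑ ω, P ω * S1 ω = ∑ q ∈ (univ : Finset L).offDiag,
        ∑ u, ∑ v, σ u * σ v * (if poor u v then 1 else 0) := by
      simp only [hS1, Finset.mul_sum]
      rw [Finset.sum_comm]
      refine Finset.sum_congr rfl fun q hq => ?_
      rw [mem_offDiag] at hq
      exact ex_pair ρ' h1 (Sum.inl q.1) (Sum.inl q.2) (by simpa using hq.2.2)
        (fun u v => if poor u v then (1 : ℝ) else 0)
    rw [this, Finset.sum_const, Finset.offDiag_card, Finset.card_univ, nsmul_eq_mul,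
      Nat.cast_sub (Nat.le_mul_self _), Nat.cast_mul]
    apply mul_le_mul_of_nonneg_left ha
    have : (Fintype.card L : ℝ) ≤ (Fintype.card L : ℝ) * (Fintype.card L) := by
      exact_mod_cast Nat.le_mul_self _
    linarith
  have hE2 : ∑ ω, P ω * S2 ω ≤ (Fintype.card L : ℝ) * (8 * M) * b := by
    have : ∑ ω, P ω * S2 ω = ∑ i : L, ∑ x : K ⊕ K,
        ∑ u, ∑ v, σ u * ρ v * (if poor u v then 1 else 0) := by
      simp only [hS2, Finset.mul_sum]
      rw [Finset.sum_comm]
      refine Finset.sum_congr rfl fun i _ => ?_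
      rw [Finset.sum_comm]
      refine Finset.sum_congr rfl fun x _ => ?_
      exact ex_pair ρ' h1 (Sum.inl i) (Sum.inr x) (by simp)
        (fun u v => if poor u v then (1 : ℝ) else 0)
    rw [this, Finset.sum_const, Finset.sum_const, Finset.card_univ, Finset.card_univ,
      Fintype.card_sum, hK, nsmul_eq_mul, nsmul_eq_mul]
    push_cast
    have h3 : (Fintype.card L : ℝ) * (8 * M) * b = (Fintype.card L : ℝ) * ((4 * M + 4 * M) * b) := by
      ring
    rw [h3]
    gcongr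
  have hE3 : ∑ ω, P ω * S3 ω ≤ (8 * M) ^ 2 * d := by
    have : ∑ ω, P ω * S3 ω = ∑ q ∈ (univ : Finset (K ⊕ K)).offDiag,
        ∑ u, ∑ v, ρ u * ρ v * (if poor u v then 1 else 0) := by
      simp only [hS3, Finset.mul_sum]
      rw [Finset.sum_comm]
      refine Finset.sum_congr rfl fun q hq => ?_
      rw [mem_offDiag] at hq
      exact ex_pair ρ' h1 (Sum.inr q.1) (Sum.inr q.2) (by simpa using hq.2.2)
        (fun u v => if poor u v then (1 : ℝ) else 0)
    rw [this, Finset.sum_const, nsmul_eq_mul]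
    have h3 : (((univ : Finset (K ⊕ K)).offDiag.card : ℕ) : ℝ) ≤ (8 * M) ^ 2 := by
      have : (univ : Finset (K ⊕ K)).offDiag.card ≤ (8 * M) ^ 2 := by
        rw [Finset.offDiag_card, Finset.card_univ, Fintype.card_sum, hK]
        refine le_trans (Nat.sub_le _ _) ?_
        apply le_of_eq; ring
      exact_mod_cast this
    exact mul_le_mul h3 hd (Finset.sum_nonneg fun u _ => Finset.sum_nonneg fun v _ =>
      mul_nonneg (mul_nonneg (hρ0 u) (hρ0 v)) (by split_ifs <;> norm_num)) (by positivity)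
  have hE4 : ∑ ω, P ω * S4 ω ≤ (Fintype.card C : ℝ) * (4 * M) * 2 ^ (4 * M) := by
    have : ∑ ω, P ω * S4 ω = ∑ c : C, ∑ s : K,
        (∑ u, ∑ v, ρ u * ρ v * g c u v) ^ (Fintype.card K) := by
      simp only [hS4, Finset.mul_sum]
      rw [Finset.sum_comm]
      refine Finset.sum_congr rfl fun c _ => ?_
      rw [Finset.sum_comm]
      refine Finset.sum_congr rfl fun s _ => ?_
      exact ex_shift ρ' h1 ρ (fun _ => rfl) (g c) s
    rw [this]
    have hc : ∀ c, ∑ u, ∑ v, ρ u * ρ v * g c u v ≤ 2 := by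
      intro c
      have h3 : ∑ u, ∑ v, ρ u * ρ v * g c u v
          = (∑ u, ρ u) * (∑ v, ρ v)
            + 63 * ∑ u, ∑ v, ρ u * ρ v * (if miss c u v then 1 else 0) := by
        rw [Finset.sum_mul_sum, Finset.mul_sum, ← Finset.sum_add_distrib]
        refine Finset.sum_congr rfl fun u _ => ?_
        rw [Finset.mul_sum, ← Finset.sum_add_distrib]
        refine Finset.sum_congr rfl fun v _ => ?_
        simp only [hg]
        split_ifs <;> ring
      rw [h3, hρ1]
      linarith [hmiss c]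
    have hc0 : ∀ c, 0 ≤ ∑ u, ∑ v, ρ u * ρ v * g c u v := by
      intro c
      refine Finset.sum_nonneg fun u _ => Finset.sum_nonneg fun v _ =>
        mul_nonneg (mul_nonneg (hρ0 u) (hρ0 v)) ?_
      simp only [hg]
      split_ifs <;> norm_num
    calc ∑ c : C, ∑ s : K, (∑ u, ∑ v, ρ u * ρ v * g c u v) ^ (Fintype.card K)
        ≤ ∑ c : C, ∑ s : K, (2 : ℝ) ^ (Fintype.card K) :=
          Finset.sum_le_sum fun c _ => Finset.sum_le_sum fun s _ => pow_le_pow_left₀ (hc0 c) (hc c) _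
      _ = (Fintype.card C : ℝ) * (4 * M) * 2 ^ (4 * M) := by
          rw [Finset.sum_const, Finset.sum_const, Finset.card_univ, Finset.card_univ, hK,
            nsmul_eq_mul, nsmul_eq_mul]
          push_cast
          ring
  -- total
  set cost : (L ⊕ (K ⊕ K) → V) → ℝ := fun ω =>
    S1 ω + S2 ω + S3 ω / 4200 + S4 ω / 64 ^ M with hcostdef
  have hEcost : ∑ ω, P ω * cost ω < 1 := by
    have h3 : ∑ ω, P ω * cost ω = ∑ ω, P ω * S1 ω + ∑ ω, P ω * S2 ω
        + (∑ ω, P ω * S3 ω) / 4200 + (∑ ω, P ω * S4 ω) / 64 ^ M := by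
      rw [Finset.sum_div, Finset.sum_div, ← Finset.sum_add_distrib, ← Finset.sum_add_distrib,
        ← Finset.sum_add_distrib]
      refine Finset.sum_congr rfl fun ω _ => ?_
      simp only [hcostdef]
      ring
    rw [h3]
    have h4 : (∑ ω, P ω * S4 ω) / 64 ^ M ≤ (Fintype.card C : ℝ) * (4 * M) * (1 / 4) ^ M := by
      rw [div_le_iff₀ (by positivity)]
      refine le_trans hE4 (le_of_eq ?_)
      rw [mul_assoc ((Fintype.card C : ℝ) * (4 * M)), ← mul_pow]
      congr 1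
      rw [pow_mul]
      norm_num
    have h5 : (∑ ω, P ω * S3 ω) / 4200 ≤ (8 * M) ^ 2 * d / 4200 :=
      div_le_div_of_nonneg_right hE3 (by norm_num)
    linarith
  obtain ⟨ω, hω, hωc⟩ : ∃ ω, 0 < P ω ∧ cost ω < 1 := by
    by_contra hcon
    push Not at hcon
    have : ∑ ω, P ω ≤ ∑ ω, P ω * cost ω := by
      apply Finset.sum_le_sum
      intro ω _
      rcases (hP0 ω).lt_or_eq with h | h
      · have := hcon ω h
        nlinarith
      · rw [← h]; simp
    linarith
  have hpos : ∀ x, 0 < ρ' x (ω x) := by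
    intro x
    rcases (h0 x (ω x)).lt_or_eq with h | h
    · exact h
    · exfalso
      have : P ω = 0 := Finset.prod_eq_zero (Finset.mem_univ x) h.symm
      linarith
  have hS1n : 0 ≤ S1 ω := Finset.sum_nonneg fun _ _ => by split_ifs <;> norm_num
  have hS2n : 0 ≤ S2 ω := Finset.sum_nonneg fun _ _ => Finset.sum_nonneg fun _ _ => by
    split_ifs <;> norm_num
  have hS3n : 0 ≤ S3 ω := Finset.sum_nonneg fun _ _ => by split_ifs <;> norm_num
  have hgn : ∀ c u v, 0 ≤ g c u v := by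
    intro c u v
    simp only [hg]
    split_ifs <;> norm_num
  have hS4n : 0 ≤ S4 ω := Finset.sum_nonneg fun c _ => Finset.sum_nonneg fun s _ =>
    Finset.prod_nonneg fun i _ => hgn _ _ _
  have hS4n' : 0 ≤ S4 ω / 64 ^ M := by positivity
  have hS3n' : 0 ≤ S3 ω / 4200 := by positivity
  have hc' : S1 ω + S2 ω + S3 ω / 4200 + S4 ω / 64 ^ M < 1 := hωc
  refine ⟨fun i => ω (Sum.inl i), fun x => ω (Sum.inr x), fun i => hpos (Sum.inl i),
    fun x => hpos (Sum.inr x), ?_, ?_, ?_, ?_⟩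
  · intro i j hij hpoor
    have : (1 : ℝ) ≤ S1 ω := by
      have h3 := Finset.single_le_sum (s := (univ : Finset L).offDiag)
        (f := fun q : L × L => (if poor (ω (Sum.inl q.1)) (ω (Sum.inl q.2)) then (1 : ℝ) else 0))
        (fun _ _ => by split_ifs <;> norm_num) (a := (i, j)) (by simp [hij])
      simp only [hpoor, if_true] at h3
      exact h3
    linarith
  · intro i x hpoor
    have : (1 : ℝ) ≤ S2 ω := by
      have h3 := Finset.single_le_sum (s := (univ : Finset (K ⊕ K)))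
        (f := fun x : K ⊕ K => (if poor (ω (Sum.inl i)) (ω (Sum.inr x)) then (1 : ℝ) else 0))
        (fun _ _ => by split_ifs <;> norm_num) (a := x) (Finset.mem_univ _)
      simp only [hpoor, if_true] at h3
      have h4 := Finset.single_le_sum (s := (univ : Finset L))
        (f := fun i : L => ∑ x : K ⊕ K,
          (if poor (ω (Sum.inl i)) (ω (Sum.inr x)) then (1 : ℝ) else 0))
        (fun _ _ => Finset.sum_nonneg fun _ _ => by split_ifs <;> norm_num) (a := i)
        (Finset.mem_univ _)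
      exact le_trans h3 h4
    linarith
  · have h3 : S3 ω < 4200 := by
      have : S3 ω / 4200 < 1 := by linarith
      rwa [div_lt_one (by norm_num)] at this
    have h4 : S3 ω = (((univ : Finset (K ⊕ K)).offDiag.filter
        fun q => poor (ω (Sum.inr q.1)) (ω (Sum.inr q.2))).card : ℝ) := by
      simp only [hS3]
      rw [Finset.sum_boole]
    rw [h4] at h3
    exact_mod_cast h3
  · intro c s
    by_contra hcon
    push Not at hcon
    set N := ((univ : Finset K).filter fun i =>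
        miss c (ω (Sum.inr (Sum.inl i))) (ω (Sum.inr (Sum.inr (i + s))))).card with hN
    have h3 : ∏ i : K, g c (ω (Sum.inr (Sum.inl i))) (ω (Sum.inr (Sum.inr (i + s)))) = 64 ^ N := by
      simp only [hg]
      rw [Finset.prod_ite]
      simp only [Finset.prod_const, one_pow, mul_one]
      rfl
    have h4 : (64 : ℝ) ^ M ≤ 64 ^ N := pow_le_pow_right₀ (by norm_num) hcon
    have h5 : (64 : ℝ) ^ N ≤ S4 ω := by
      rw [← h3]
      have h6 := Finset.single_le_sum (s := (univ : Finset K))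
        (f := fun s : K => ∏ i : K, g c (ω (Sum.inr (Sum.inl i))) (ω (Sum.inr (Sum.inr (i + s)))))
        (fun _ _ => Finset.prod_nonneg fun i _ => hgn _ _ _) (a := s) (Finset.mem_univ _)
      have h7 := Finset.single_le_sum (s := (univ : Finset C))
        (f := fun c : C => ∑ s : K, ∏ i : K,
          g c (ω (Sum.inr (Sum.inl i))) (ω (Sum.inr (Sum.inr (i + s)))))
        (fun _ _ => Finset.sum_nonneg fun _ _ => Finset.prod_nonneg fun i _ => hgn _ _ _)
        (a := c) (Finset.mem_univ _)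
      exact le_trans h6 h7
    have h8 : 1 ≤ S4 ω / 64 ^ M := by
      rw [one_le_div (by positivity)]
      exact le_trans h4 h5
    linarith

end Pool.Agent.Lib.MP_d78df2_co
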