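import Pool.Agent.Lib.MP_d78df2_co.Greedy
import Pool.Agent.Lib.MP_d78df2_co.Sampling

/-!
The main lemma: compensators and a sample give a rainbow clique.
-/

namespace Pool.Agent.Lib.MP_d78df2_co

open Finset

/-- Half of the sample size parameter. -/
def Mr (r : ℕ) : ℕ := r.sqrt / 2 + 1

theorem Mr_lower (r : ℕ) : r ≤ 4 * (Mr r) ^ 2 := by
  have h1 : r < (r.sqrt + 1) * (r.sqrt + 1) := Nat.lt_succ_sqrt r
  have h2 : r.sqrt + 1 ≤ 2 * Mr r := by unfold Mr; omega
  have h3 : (r.sqrt + 1) * (r.sqrt + 1) ≤ (2 * Mr r) * (2 * Mr r) := Nat.mul_le_mul h2 h2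
  nlinarith

theorem Mr_upper (r : ℕ) : (Mr r : ℝ) ≤ Real.sqrt r / 2 + 1 := by
  have h1 : 2 * (Mr r) ≤ r.sqrt + 2 := by unfold Mr; omega
  have h2 : (r.sqrt : ℝ) ≤ Real.sqrt r := Real.nat_sqrt_le_real_sqrt
  have h3 : 2 * (Mr r : ℝ) ≤ r.sqrt + 2 := by exact_mod_cast h1
  linarith

theorem Mr_big {r : ℕ} (hr : 100000000000000 ≤ r) : 5000000 ≤ Mr r := by
  have h1 : 10000000 ≤ r.sqrt := by
    rw [Nat.le_sqrt]
    omega
  unfold Mr; omega

theorem four_pow_big {M : ℕ} (hM : 20 ≤ M) : 64 * (M : ℝ) ^ 5 ≤ 4 ^ M := by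
  induction M, hM using Nat.le_induction with
  | base => norm_num
  | succ M hM ih =>
    have hMR : (20 : ℝ) ≤ M := by exact_mod_cast hM
    have h1 : ((M : ℝ) + 1) ≤ 1.05 * M := by linarith
    have h2 : ((M : ℝ) + 1) ^ 5 ≤ (1.05 * M) ^ 5 := pow_le_pow_left₀ (by linarith) h1 5
    have h3 : (1.05 * (M : ℝ)) ^ 5 ≤ 4 * (M : ℝ) ^ 5 := by
      rw [mul_pow]
      apply mul_le_mul_of_nonneg_right _ (by positivity)
      norm_num
    push_cast
    rw [pow_succ (4 : ℝ) M]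
    linarith

theorem cost_bound {r : ℕ} (hr : 100000000000000 ≤ r) (l : ℕ) (hl : l ≤ 640) (a : ℝ)
    (ha : l ≤ 1 ∨ a ≤ 2560 * (1 / ((r : ℝ) - 1))) (c : ℕ) (hc : c = r.choose 2) :
    ((l : ℝ) * l - l) * a
      + (l : ℝ) * (8 * (Mr r : ℝ)) * (40 * (1 / ((r : ℝ) - 1)))
      + (8 * (Mr r : ℝ)) ^ 2 * (32 * (1 / ((r : ℝ) - 1))) / 4200
      + (c : ℝ) * (4 * (Mr r : ℝ)) * (1 / 4) ^ (Mr r) < 1 := by
  have hrR : (100000000000000 : ℝ) ≤ r := by exact_mod_cast hr
  set s := Real.sqrt r with hs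
  have hs2 : s ^ 2 = r := Real.sq_sqrt (by positivity)
  have hs7 : (10000000 : ℝ) ≤ s := Real.le_sqrt_of_sq_le (le_trans (by norm_num) hrR)
  set M := Mr r with hM
  have hM1 : (M : ℝ) ≤ 0.51 * s := by
    have := Mr_upper r
    rw [← hM, ← hs] at this
    linarith
  have hM0 : (0 : ℝ) ≤ M := Nat.cast_nonneg _
  have hMbig : 5000000 ≤ M := Mr_big hr
  have hMlow : (r : ℝ) ≤ 4 * (M : ℝ) ^ 2 := by exact_mod_cast Mr_lower r
  have ht1 : 1 / ((r : ℝ) - 1) ≤ 1.01 / s ^ 2 := by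
    rw [hs2, div_le_div_iff₀ (by linarith) (by linarith)]
    linarith
  have ht0 : 0 ≤ 1 / ((r : ℝ) - 1) := by
    apply div_nonneg (by norm_num); linarith
  have hlR : (l : ℝ) ≤ 640 := by exact_mod_cast hl
  have hl0 : (0 : ℝ) ≤ l := Nat.cast_nonneg _
  have hspos : 0 < s := by linarith
  have e1 : ((l : ℝ) * l - l) * a ≤ 0.01 := by
    rcases ha with ha | ha
    · have : l = 0 ∨ l = 1 := by omega
      rcases this with rfl | rfl <;> norm_num
    · have h1 : (0 : ℝ) ≤ (l : ℝ) * l - l := by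
        have : (l : ℝ) ≤ (l : ℝ) * l := by exact_mod_cast Nat.le_mul_self l
        linarith
      have h2 : (l : ℝ) * l - l ≤ 409600 := by
        have := mul_le_mul hlR hlR hl0 (by norm_num)
        linarith
      have h3 : 1 / ((r : ℝ) - 1) ≤ 1 / 10000000000000 := by
        apply one_div_le_one_div_of_le (by norm_num)
        linarith
      calc ((l : ℝ) * l - l) * a ≤ ((l : ℝ) * l - l) * (2560 * (1 / ((r : ℝ) - 1))) :=
            mul_le_mul_of_nonneg_left ha h1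
        _ ≤ 409600 * (2560 * (1 / 10000000000000)) := by
            apply mul_le_mul h2 _ (by positivity) (by norm_num)
            linarith
        _ ≤ 0.01 := by norm_num
  have e2 : (l : ℝ) * (8 * (M : ℝ)) * (40 * (1 / ((r : ℝ) - 1))) ≤ 0.02 := by
    calc (l : ℝ) * (8 * (M : ℝ)) * (40 * (1 / ((r : ℝ) - 1)))
        ≤ 640 * (8 * (0.51 * s)) * (40 * (1.01 / s ^ 2)) := by
          gcongr
      _ = (640 * 8 * 0.51 * 40 * 1.01) / s := by
          field_simp
      _ ≤ 0.02 := by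
          rw [div_le_iff₀ hspos]
          linarith
  have e3 : (8 * (M : ℝ)) ^ 2 * (32 * (1 / ((r : ℝ) - 1))) / 4200 ≤ 0.2 := by
    calc (8 * (M : ℝ)) ^ 2 * (32 * (1 / ((r : ℝ) - 1))) / 4200
        ≤ (8 * (0.51 * s)) ^ 2 * (32 * (1.01 / s ^ 2)) / 4200 := by
          gcongr
      _ = (8 * 0.51) ^ 2 * (32 * 1.01) / 4200 := by
          field_simp
      _ ≤ 0.2 := by norm_num
  have e4 : (c : ℝ) * (4 * (M : ℝ)) * (1 / 4) ^ M ≤ 0.5 := by
    have hcR : (c : ℝ) ≤ 8 * (M : ℝ) ^ 4 := by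
      have h1 : (c : ℝ) ≤ (r : ℝ) ^ 2 / 2 := by
        rw [hc, Nat.choose_two_right, Nat.cast_div_charZero (by
          exact (Nat.even_mul_pred_self r).two_dvd), Nat.cast_mul, Nat.cast_sub (by omega)]
        have h9 : (r : ℝ) * (r - (1 : ℕ)) = (r : ℝ) ^ 2 - r := by push_cast; ring
        rw [h9]
        push_cast
        linarith
      have h2 : (r : ℝ) ^ 2 ≤ (4 * (M : ℝ) ^ 2) ^ 2 := pow_le_pow_left₀ (by linarith) hMlow 2
      have h3 : (4 * (M : ℝ) ^ 2) ^ 2 = 16 * (M : ℝ) ^ 4 := by ring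
      linarith
    have h5 : 64 * (M : ℝ) ^ 5 ≤ 4 ^ M := four_pow_big (by omega)
    have h6 : (0 : ℝ) < (1 / 4) ^ M := by positivity
    calc (c : ℝ) * (4 * (M : ℝ)) * (1 / 4) ^ M ≤ (8 * (M : ℝ) ^ 4) * (4 * (M : ℝ)) * (1 / 4) ^ M := by
          gcongr
      _ = (64 * (M : ℝ) ^ 5) * (1 / 4) ^ M / 2 := by ring
      _ ≤ 4 ^ M * (1 / 4) ^ M / 2 := by gcongr
      _ = 0.5 := by
          rw [← mul_pow]; norm_num
  linarith

theorem main_lemma {V C : Type*} [Fintype V] [DecidableEq V] [Fintype C] [DecidableEq C]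
    {r : ℕ} (hr : 100000000000000 ≤ r)
    (hC : Fintype.card C = r.choose 2) (miss : C → V → V → Prop)
    [∀ c u v, Decidable (miss c u v)]
    (hmsymm : ∀ c u v, miss c u v → miss c v u)
    (X : V → V → ℝ)
    (hX : ∀ u v, X u v = ((univ.filter fun c => miss c u v).card : ℝ) / (r.choose 2 : ℕ))
    (w : V → ℝ) (hw0 : ∀ v, 0 ≤ w v)
    (hμ : ∀ v, 0 < w v → ∑ u, X u v * w u ≤ 1 / ((r : ℝ) - 1) * ∑ u, w u)
    (l : ℕ) (hl : l ≤ 640)
    (σ ρ : V → ℝ) (hσ0 : ∀ v, 0 ≤ σ v) (hρ0 : ∀ v, 0 ≤ ρ v) (hσ1 : ∑ v, σ v = 1)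
    (hρ1 : ∑ v, ρ v = 1) (α β : ℝ) (hβ : 0 ≤ β) (hαβ : 8 * (Mr r : ℝ) * β < l * α)
    (hσα : ∀ v, 0 < σ v → ∑ u, X u v * w u ≤ 1 / ((r : ℝ) - 1) * ∑ u, w u - α)
    (hρβ : ∀ v, 0 < ρ v → ∑ u, X u v * w u ≤ 1 / ((r : ℝ) - 1) * ∑ u, w u + β)
    (hmiss : ∀ c, ∑ u, ∑ v, ρ u * ρ v * (if miss c u v then 1 else 0) ≤ 1 / 64)
    (hρρ : ∑ u, ∑ v, ρ u * ρ v * X u v ≤ 4 * (1 / ((r : ℝ) - 1)))
    (hσρ : ∑ u, ∑ v, σ u * ρ v * X u v ≤ 5 * (1 / ((r : ℝ) - 1)))
    (hσσ : l ≤ 1 ∨ ∑ u, ∑ v, σ u * σ v * X u v ≤ 320 * (1 / ((r : ℝ) - 1))) :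
    ∃ (p : Fin r → V) (φ : Pr r → C), Function.Injective φ ∧
      ∀ q, ¬ miss (φ q) (p q.1.1) (p q.1.2) := by
  classical
  have hrR : (100000000000000 : ℝ) ≤ r := by exact_mod_cast hr
  have ht0 : 0 ≤ 1 / ((r : ℝ) - 1) := by
    apply div_nonneg (by norm_num); linarith
  set M := Mr r with hM
  have hMbig : 5000000 ≤ M := Mr_big hr
  have : NeZero (4 * M) := ⟨by omega⟩
  have hX0 : ∀ u v, 0 ≤ X u v := fun u v => by rw [hX]; positivity
  have hsymm : ∀ u v, X u v = X v u := by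
    intro u v
    rw [hX, hX]
    congr 2
    refine congrArg Finset.card ?_
    ext c
    simp only [mem_filter, mem_univ, true_and]
    exact ⟨hmsymm c u v, hmsymm c v u⟩
  have hmk : ∀ (s1 s2 : V → ℝ), (∀ v, 0 ≤ s1 v) → (∀ v, 0 ≤ s2 v) →
      ∑ u, ∑ v, s1 u * s2 v * (if 1 / 8 ≤ X u v then 1 else 0)
        ≤ 8 * ∑ u, ∑ v, s1 u * s2 v * X u v := by
    intro s1 s2 h1 h2
    rw [Finset.mul_sum]
    refine Finset.sum_le_sum fun u _ => ?_
    rw [Finset.mul_sum]
    refine Finset.sum_le_sum fun v _ => ?_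
    have h3 : 0 ≤ s1 u * s2 v := mul_nonneg (h1 u) (h2 v)
    have h4 : (if 1 / 8 ≤ X u v then (1 : ℝ) else 0) ≤ 8 * X u v := by
      split_ifs with h
      · linarith
      · linarith [hX0 u v]
    calc s1 u * s2 v * (if 1 / 8 ≤ X u v then 1 else 0) ≤ s1 u * s2 v * (8 * X u v) :=
          mul_le_mul_of_nonneg_left h4 h3
      _ = 8 * (s1 u * s2 v * X u v) := by ring
  obtain ⟨cc, τ, hcc, hτ, hpcc, hpcp, hppp, hgood⟩ := sampling (L := Fin l) (K := ZMod (4 * M)) M
    (by rw [ZMod.card]) σ ρ hσ0 hρ0 hσ1 hρ1 (fun u v => 1 / 8 ≤ X u v) miss hmiss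
    (∑ u, ∑ v, σ u * σ v * (if 1 / 8 ≤ X u v then 1 else 0))
    (40 * (1 / ((r : ℝ) - 1))) (32 * (1 / ((r : ℝ) - 1))) le_rfl
    (le_trans (hmk σ ρ hσ0 hρ0) (by linarith)) (le_trans (hmk ρ ρ hρ0 hρ0) (by linarith))
    (by positivity) (by
      rw [Fintype.card_fin, hC]
      exact cost_bound hr l hl _ (by
        rcases hσσ with h | h
        · exact Or.inl h
        · right
          refine le_trans (hmk σ σ hσ0 hσ0) ?_
          linarith) _ rfl)
  -- the poor indices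
  set D : Finset (ZMod (4 * M) ⊕ ZMod (4 * M)) :=
    (((univ : Finset (ZMod (4 * M) ⊕ ZMod (4 * M))).offDiag.filter
      fun q => 1 / 8 ≤ X (τ q.1) (τ q.2))).image Prod.fst with hD
  have hDcard : D.card < 4200 := lt_of_le_of_lt Finset.card_image_le hppp
  have hDgood : ∀ x y, x ∉ D → x ≠ y → X (τ x) (τ y) < 1 / 8 := by
    intro x y hx hxy
    by_contra hcon
    push Not at hcon
    apply hx
    rw [hD, mem_image]
    exact ⟨(x, y), by simp only [mem_filter, mem_offDiag, mem_univ, true_and]; exact ⟨hxy, hcon⟩, rfl⟩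
  set I : Finset (Fin l ⊕ (ZMod (4 * M) ⊕ ZMod (4 * M))) := (univ : Finset (Fin l)).disjSum Dᶜ with hI
  set pt : Fin l ⊕ (ZMod (4 * M) ⊕ ZMod (4 * M)) → V := Sum.elim cc τ with hpt
  have hIcard : I.card = l + (Dᶜ).card := by
    rw [hI, Finset.card_disjSum, Finset.card_univ, Fintype.card_fin]
  have hDc : (Dᶜ).card ≤ 8 * M := by
    refine le_trans (Finset.card_le_univ _) ?_
    rw [Fintype.card_sum, ZMod.card]
    omega
  set s := Real.sqrt r with hs
  have hs2 : s ^ 2 = r := Real.sq_sqrt (by positivity)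
  have hs7 : (10000000 : ℝ) ≤ s := Real.le_sqrt_of_sq_le (le_trans (by norm_num) hrR)
  have hIs : (I.card : ℝ) ≤ 4.01 * s := by
    have h1 : I.card ≤ 640 + 8 * M := by rw [hIcard]; omega
    have h2 : (I.card : ℝ) ≤ 640 + 8 * M := by exact_mod_cast h1
    have h3 := Mr_upper r
    rw [← hM, ← hs] at h3
    linarith
  have hI3 : (I.card : ℝ) ^ 2 ≤ 16.1 * r := by
    rw [← hs2]
    calc (I.card : ℝ) ^ 2 ≤ (4.01 * s) ^ 2 := pow_le_pow_left₀ (Nat.cast_nonneg _) hIs 2
      _ ≤ 16.1 * s ^ 2 := by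
        rw [mul_pow]
        apply mul_le_mul_of_nonneg_right _ (by positivity)
        norm_num
  have hI4 : I.card ≤ r := by
    have : (I.card : ℝ) ≤ r := by
      rw [← hs2]
      have : 4.01 * s ≤ s * s := by
        apply mul_le_mul_of_nonneg_right _ (by linarith)
        linarith
      rw [pow_two]
      exact le_trans hIs this
    exact_mod_cast this
  refine finish (A := Fin l ⊕ (ZMod (4 * M) ⊕ ZMod (4 * M))) (le_trans (by norm_num) hr) hC miss hmsymm X hX w hw0 hμ I pt ?_ ?_ hI3 hI4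
    (fun c => ((univ : Finset (ZMod (4 * M) × ZMod (4 * M))).filter
      fun q => Sum.inl q.1 ∉ D ∧ Sum.inr q.2 ∉ D ∧
        ¬ miss c (τ (Sum.inl q.1)) (τ (Sum.inr q.2))).image
      (fun q => (Sum.inr (Sum.inl q.1), Sum.inr (Sum.inr q.2)))) ?_ ?_ ?_
  · -- pairwise spread
    rintro (i | x) hi (j | y) hj hij
    · have := hpcc i j (by simpa using hij)
      simpa [hpt] using this
    · have := hpcp i y
      simpa [hpt] using this
    · have := hpcp j x
      rw [hsymm] at this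
      simpa [hpt] using this
    · have hx : x ∉ D := by simpa [hI] using hi
      have := hDgood x y hx (by simpa using hij)
      simpa [hpt] using this
  · -- total
    rw [hI, Finset.sum_disjSum]
    have h1 : ∑ i : Fin l, ∑ u, X u (pt (Sum.inl i)) * w u
        ≤ l * (1 / ((r : ℝ) - 1) * ∑ u, w u - α) := by
      have : ∑ i : Fin l, ∑ u, X u (pt (Sum.inl i)) * w u
          ≤ ∑ i : Fin l, (1 / ((r : ℝ) - 1) * ∑ u, w u - α) :=
        Finset.sum_le_sum fun i _ => hσα _ (hcc i)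
      rw [Finset.sum_const, Finset.card_univ, Fintype.card_fin, nsmul_eq_mul] at this
      exact this
    have h2 : ∑ x ∈ Dᶜ, ∑ u, X u (pt (Sum.inr x)) * w u
        ≤ ((Dᶜ).card : ℝ) * (1 / ((r : ℝ) - 1) * ∑ u, w u + β) := by
      have : ∑ x ∈ Dᶜ, ∑ u, X u (pt (Sum.inr x)) * w u
          ≤ ∑ x ∈ Dᶜ, (1 / ((r : ℝ) - 1) * ∑ u, w u + β) :=
        Finset.sum_le_sum fun x _ => hρβ _ (hτ x)
      rw [Finset.sum_const, nsmul_eq_mul] at this
      exact this
    have h3 : ((Dᶜ).card : ℝ) * β ≤ 8 * M * β := by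
      apply mul_le_mul_of_nonneg_right _ hβ
      exact_mod_cast hDc
    have h4 : ((((univ : Finset (Fin l)).disjSum Dᶜ).card : ℕ) : ℝ) = l + ((Dᶜ).card : ℝ) := by
      rw [Finset.card_disjSum, Finset.card_univ, Fintype.card_fin]
      push_cast
      ring
    rw [h4]
    have h5 : ((l : ℝ) + ((Dᶜ).card : ℝ)) * (1 / ((r : ℝ) - 1) * ∑ u, w u)
        = l * (1 / ((r : ℝ) - 1) * ∑ u, w u - α)
          + ((Dᶜ).card : ℝ) * (1 / ((r : ℝ) - 1) * ∑ u, w u + β)
          + (l * α - ((Dᶜ).card : ℝ) * β) := by ring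
    rw [h5]
    linarith
  · -- many present pairs
    intro c
    rw [Finset.card_image_of_injective _ (by
      intro q q' h
      simp only [Prod.mk.injEq, Sum.inr.injEq, Sum.inl.injEq] at h
      exact Prod.ext h.1 h.2)]
    -- all present pairs
    set Q := (univ : Finset (ZMod (4 * M) × ZMod (4 * M))).filter
      (fun q => ¬ miss c (τ (Sum.inl q.1)) (τ (Sum.inr q.2))) with hQ
    have hQcard : 12 * M ^ 2 ≤ Q.card := by
      have h1 : Q.card = ∑ s : ZMod (4 * M), ((univ : Finset (ZMod (4 * M))).filter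
          fun i => ¬ miss c (τ (Sum.inl i)) (τ (Sum.inr (i + s)))).card := by
        rw [← Finset.card_sigma]
        refine Finset.card_bij' (fun q _ => (⟨q.2 - q.1, q.1⟩ : (_ : ZMod (4 * M)) × ZMod (4 * M)))
          (fun q _ => (q.2, q.2 + q.1)) ?_ ?_ ?_ ?_
        · intro q hq
          rw [hQ, mem_filter] at hq
          simp only [mem_sigma, mem_univ, true_and, mem_filter, add_sub_cancel]
          exact hq.2
        · intro q hq
          simp only [mem_sigma, mem_univ, true_and, mem_filter] at hq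
          rw [hQ, mem_filter]
          exact ⟨mem_univ _, hq⟩
        · intro q _
          simp
        · intro q _
          simp
      have h2 : ∀ s : ZMod (4 * M), 3 * M ≤ ((univ : Finset (ZMod (4 * M))).filter
          fun i => ¬ miss c (τ (Sum.inl i)) (τ (Sum.inr (i + s)))).card := by
        intro s
        have h3 := hgood c s
        have h4 := Finset.card_filter_add_card_filter_not (s := (univ : Finset (ZMod (4 * M))))
          (fun i => miss c (τ (Sum.inl i)) (τ (Sum.inr (i + s))))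
        rw [Finset.card_univ, ZMod.card] at h4
        omega
      rw [h1]
      have h3 := Finset.sum_le_sum (s := (univ : Finset (ZMod (4 * M)))) (fun s _ => h2 s)
      rw [Finset.sum_const, Finset.card_univ, ZMod.card, smul_eq_mul] at h3
      calc 12 * M ^ 2 = 4 * M * (3 * M) := by ring
        _ ≤ _ := h3
    -- the bad ones
    set B1 := (univ : Finset (ZMod (4 * M) × ZMod (4 * M))).filter
      (fun q => Sum.inl q.1 ∈ D ∨ Sum.inr q.2 ∈ D) with hB1
    have hB : B1.card ≤ 4200 * (4 * M) := by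
      have h1 : B1.card ≤ (D ×ˢ (univ : Finset (ZMod (4 * M)))).card := by
        refine Finset.card_le_card_of_injOn (fun q =>
          if Sum.inl q.1 ∈ D then (Sum.inl q.1, q.2) else (Sum.inr q.2, q.1)) ?_ ?_
        · intro q hq
          rw [mem_coe, hB1, mem_filter] at hq
          rw [mem_coe, mem_product]
          simp only [mem_univ, and_true]
          split_ifs with h
          · exact h
          · exact hq.2.resolve_left h
        · intro q _ q' _ heq
          simp only at heq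
          split_ifs at heq <;> simp only [Prod.mk.injEq, Sum.inl.injEq, Sum.inr.injEq,
            reduceCtorEq, false_and] at heq
          · exact Prod.ext heq.1 heq.2
          · exact Prod.ext heq.2 heq.1
      rw [Finset.card_product, Finset.card_univ, ZMod.card] at h1
      exact le_trans h1 (Nat.mul_le_mul_right _ hDcard.le)
    have hsub : Q \ B1 ⊆ (univ : Finset (ZMod (4 * M) × ZMod (4 * M))).filter
      (fun q => Sum.inl q.1 ∉ D ∧ Sum.inr q.2 ∉ D ∧
        ¬ miss c (τ (Sum.inl q.1)) (τ (Sum.inr q.2))) := by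
      intro q hq
      rw [mem_sdiff, hQ, hB1, mem_filter, mem_filter] at hq
      rw [mem_filter]
      refine ⟨mem_univ _, ?_, ?_, hq.1.2⟩
      · intro h; exact hq.2 ⟨mem_univ _, Or.inl h⟩
      · intro h; exact hq.2 ⟨mem_univ _, Or.inr h⟩
    have h1 := Finset.card_le_card hsub
    have h2 := Finset.le_card_sdiff B1 Q
    have h3 : r ≤ 4 * M ^ 2 := Mr_lower r
    have h4 : 4200 * (4 * M) ≤ 4 * M ^ 2 := by
      calc 4200 * (4 * M) = 4 * (4200 * M) := by ring
        _ ≤ 4 * (M * M) := Nat.mul_le_mul_left 4 (Nat.mul_le_mul_right M (by omega))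
        _ = 4 * M ^ 2 := by ring
    omega
  · intro c q hq
    rw [mem_image] at hq
    obtain ⟨q', hq', rfl⟩ := hq
    rw [mem_filter] at hq'
    simp only [hI, hpt, Sum.elim_inr, Finset.inr_mem_disjSum, mem_compl]
    exact hq'.2
  · intro c q hq hq2
    rw [mem_image] at hq hq2
    obtain ⟨q', _, rfl⟩ := hq
    obtain ⟨q'', _, h⟩ := hq2
    simp only [Prod.mk.injEq, Sum.inr.injEq, reduceCtorEq, false_and] at h

end Pool.Agent.Lib.MP_d78df2_co
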