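import Mathlib

/-!
Minimiser of a quadratic form over the cube.
-/

namespace Pool.Agent.Lib.MP_d78df2_co

open Finset

variable {V : Type*} [Fintype V]

/-- The bilinear form with kernel `Y`. -/
noncomputable def bil (Y : V → V → ℝ) (x z : V → ℝ) : ℝ := ∑ u, ∑ v, Y u v * x u * z v

theorem bil_add_left (Y : V → V → ℝ) (x x' z : V → ℝ) :
    bil Y (fun v => x v + x' v) z = bil Y x z + bil Y x' z := by
  unfold bil
  rw [← Finset.sum_add_distrib]
  refine Finset.sum_congr rfl fun u _ => ?_
  rw [← Finset.sum_add_distrib]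
  refine Finset.sum_congr rfl fun v _ => ?_
  ring

theorem bil_add_right (Y : V → V → ℝ) (x z z' : V → ℝ) :
    bil Y x (fun v => z v + z' v) = bil Y x z + bil Y x z' := by
  unfold bil
  rw [← Finset.sum_add_distrib]
  refine Finset.sum_congr rfl fun u _ => ?_
  rw [← Finset.sum_add_distrib]
  refine Finset.sum_congr rfl fun v _ => ?_
  ring

theorem bil_comm (Y : V → V → ℝ) (hY : ∀ u v, Y u v = Y v u) (x z : V → ℝ) :
    bil Y x z = bil Y z x := by
  unfold bil
  rw [Finset.sum_comm]
  refine Finset.sum_congr rfl fun u _ => ?_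
  refine Finset.sum_congr rfl fun v _ => ?_
  rw [hY v u]; ring

theorem bil_expand (Y : V → V → ℝ) (hY : ∀ u v, Y u v = Y v u) (x z : V → ℝ) :
    bil Y (fun v => x v + z v) (fun v => x v + z v) = bil Y x x + 2 * bil Y x z + bil Y z z := by
  rw [bil_add_left, bil_add_right, bil_add_right, bil_comm Y hY z x]; ring

theorem bil_eq_sum (Y : V → V → ℝ) (x z : V → ℝ) :
    bil Y x z = ∑ v, (∑ u, Y u v * x u) * z v := by
  unfold bil
  rw [Finset.sum_comm]
  refine Finset.sum_congr rfl fun v _ => ?_
  rw [Finset.sum_mul]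

theorem exists_minimizer [DecidableEq V] (X : V → V → ℝ) (hsymm : ∀ u v, X u v = X v u)
    (t : ℝ) (hsum : ∑ u, ∑ v, X u v < t * (Fintype.card V : ℝ) ^ 2) :
    ∃ w : V → ℝ, (∀ v, 0 ≤ w v) ∧ (∀ v, w v ≤ 1) ∧
      0 < ∑ v, w v ∧
      0 < t * (∑ v, w v) ^ 2 - ∑ u, ∑ v, X u v * w u * w v ∧
      (∀ v, 0 < w v → ∑ u, X u v * w u ≤ t * ∑ u, w u) ∧
      (∀ v, w v < 1 → t * ∑ u, w u ≤ ∑ u, X u v * w u) ∧
      (∑ v, (1 - w v) * (∑ u, X u v * w u - t * ∑ u, w u) ≤
        t * (∑ v, w v) ^ 2 - ∑ u, ∑ v, X u v * w u * w v) ∧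
      (∀ H : Finset V, 2 * ∑ v ∈ H, w v * ∑ u, X u v ≤
        (t * (∑ v, w v) ^ 2 - ∑ u, ∑ v, X u v * w u * w v)
          + (∑ v ∈ H, ∑ u ∈ H, X u v * w u * w v - t * (∑ v ∈ H, w v) ^ 2)
          + 2 * t * (Fintype.card V) * ∑ v ∈ H, w v) := by
  classical
  set Y : V → V → ℝ := fun u v => X u v - t with hYdef
  have hY : ∀ u v, Y u v = Y v u := fun u v => by simp only [hYdef, hsymm u v]
  -- the minimiser
  obtain ⟨w, hwmem, hwmin⟩ : ∃ w ∈ Set.Icc (0 : V → ℝ) 1,
      IsMinOn (fun x : V → ℝ => bil Y x x) (Set.Icc (0 : V → ℝ) 1) w := by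
    apply IsCompact.exists_isMinOn isCompact_Icc
    · exact ⟨0, by simp⟩
    · apply Continuous.continuousOn
      unfold bil
      fun_prop
  have hw0 : ∀ v, 0 ≤ w v := fun v => hwmem.1 v
  have hw1 : ∀ v, w v ≤ 1 := fun v => hwmem.2 v
  have hmin : ∀ x : V → ℝ, (∀ v, 0 ≤ x v) → (∀ v, x v ≤ 1) → bil Y w w ≤ bil Y x x := by
    intro x h0 h1
    exact hwmin (show x ∈ Set.Icc (0 : V → ℝ) 1 from ⟨fun v => h0 v, fun v => h1 v⟩)
  -- evaluation of bil
  have hev : ∀ x z : V → ℝ, bil Y x z = ∑ v, (∑ u, X u v * x u) * z v - t * (∑ u, x u) * ∑ v, z v := by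
    intro x z
    rw [bil_eq_sum, Finset.mul_sum, ← Finset.sum_sub_distrib]
    refine Finset.sum_congr rfl fun v _ => ?_
    have : ∑ u, Y u v * x u = ∑ u, X u v * x u - t * ∑ u, x u := by
      rw [Finset.mul_sum, ← Finset.sum_sub_distrib]
      refine Finset.sum_congr rfl fun u _ => ?_
      simp only [hYdef]; ring
    rw [this]; ring
  have hone : bil Y (fun _ => 1) (fun _ => 1) < 0 := by
    rw [hev]
    simp only [mul_one, Finset.sum_const, Finset.card_univ, nsmul_eq_mul]
    rw [Finset.sum_comm] at hsum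
    nlinarith [hsum]
  have hneg : bil Y w w < 0 := lt_of_le_of_lt (hmin _ (fun _ => by norm_num) (fun _ => le_refl _)) hone
  have hZ : t * (∑ v, w v) ^ 2 - ∑ u, ∑ v, X u v * w u * w v = - bil Y w w := by
    have : ∑ u, ∑ v, X u v * w u * w v = ∑ v, (∑ u, X u v * w u) * w v := by
      rw [Finset.sum_comm]
      refine Finset.sum_congr rfl fun v _ => ?_
      rw [Finset.sum_mul]
    rw [hev, this]; ring
  have hWnn : 0 ≤ ∑ v, w v := Finset.sum_nonneg fun v _ => hw0 v
  have hWpos : 0 < ∑ v, w v := by
    rcases hWnn.lt_or_eq with h | h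
    · exact h
    · exfalso
      have hz : ∀ v, w v = 0 := by
        intro v
        exact (Finset.sum_eq_zero_iff_of_nonneg (fun v _ => hw0 v)).1 h.symm v (Finset.mem_univ v)
      have : bil Y w w = 0 := by
        unfold bil
        simp [hz]
      linarith
  -- perturbations
  have hpert : ∀ (v : V) (e : ℝ), 0 ≤ w v + e → w v + e ≤ 1 →
      0 ≤ 2 * e * (∑ u, X u v * w u - t * ∑ u, w u) + e ^ 2 * Y v v := by
    intro v e h0 h1
    have h := hmin (fun x => w x + (if x = v then e else 0)) (by
      intro x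
      by_cases hx : x = v
      · subst hx; simpa using h0
      · simpa [hx] using hw0 x) (by
      intro x
      by_cases hx : x = v
      · subst hx; simpa using h1
      · simpa [hx] using hw1 x)
    rw [bil_expand Y hY] at h
    have h2 : bil Y w (fun x => if x = v then e else 0) = e * (∑ u, X u v * w u - t * ∑ u, w u) := by
      rw [hev]
      simp only [mul_ite, mul_zero, Finset.sum_ite_eq', Finset.mem_univ, if_true]
      ring
    have h3 : bil Y (fun x => if x = v then e else 0) (fun x => if x = v then e else 0)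
        = e ^ 2 * Y v v := by
      unfold bil
      simp only [mul_ite, mul_zero, Finset.sum_ite_eq', Finset.mem_univ, if_true]
      simp
      ring
    rw [h2, h3] at h
    linarith
  refine ⟨w, hw0, hw1, hWpos, by rw [hZ]; linarith, ?_, ?_, ?_, ?_⟩
  · intro v hv
    set D := ∑ u, X u v * w u - t * ∑ u, w u with hD
    by_contra hcon
    have hDpos : 0 < D := by rw [hD]; linarith
    -- choose e small
    set K := |Y v v| + 1 with hK
    have hKpos : 0 < K := by positivity
    set e := min (w v) (D / K) with he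
    have hepos : 0 < e := lt_min hv (div_pos hDpos hKpos)
    have h := hpert v (-e) (by linarith [min_le_left (w v) (D / K)]) (by linarith [hw1 v])
    have h1 : e * K ≤ D := by
      have := min_le_right (w v) (D / K)
      rw [← he] at this
      rwa [le_div_iff₀ hKpos] at this
    have h2 : Y v v ≤ K := by rw [hK]; linarith [le_abs_self (Y v v)]
    have h3 : e * Y v v ≤ D := le_trans (mul_le_mul_of_nonneg_left h2 hepos.le) h1
    have h4 : 0 ≤ e * (e * Y v v - 2 * D) := by
      have : 2 * -e * D + (-e) ^ 2 * Y v v = e * (e * Y v v - 2 * D) := by ring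
      linarith [this ▸ h]
    have h5 : e * (e * Y v v - 2 * D) < 0 := mul_neg_of_pos_of_neg hepos (by linarith)
    linarith
  · intro v hv
    set D := ∑ u, X u v * w u - t * ∑ u, w u with hD
    by_contra hcon
    have hDneg : D < 0 := by rw [hD]; linarith
    set K := |Y v v| + 1 with hK
    have hKpos : 0 < K := by positivity
    set e := min (1 - w v) ((-D) / K) with he
    have hepos : 0 < e := lt_min (by linarith) (div_pos (by linarith) hKpos)
    have h := hpert v e (by linarith [hw0 v]) (by linarith [min_le_left (1 - w v) ((-D) / K)])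
    have h1 : e * K ≤ -D := by
      have := min_le_right (1 - w v) ((-D) / K)
      rw [← he] at this
      rwa [le_div_iff₀ hKpos] at this
    have h2 : Y v v ≤ K := by rw [hK]; linarith [le_abs_self (Y v v)]
    have h3 : e * Y v v ≤ -D := le_trans (mul_le_mul_of_nonneg_left h2 hepos.le) h1
    have h4 : 0 ≤ e * (e * Y v v + 2 * D) := by
      have : 2 * e * D + e ^ 2 * Y v v = e * (e * Y v v + 2 * D) := by ring
      linarith [this ▸ h]
    have h5 : e * (e * Y v v + 2 * D) < 0 := mul_neg_of_pos_of_neg hepos (by linarith)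
    linarith
  · -- f(1) = f(w) + 2 B(w,1-w) + f(1-w)
    rw [hZ]
    have h := hmin (fun v => 1 - w v) (fun v => by linarith [hw1 v]) (fun v => by linarith [hw0 v])
    have hexp := bil_expand Y hY w (fun v => 1 - w v)
    have h1 : (fun v => w v + (1 - w v)) = (fun _ : V => (1 : ℝ)) := by
      funext v; ring
    rw [h1] at hexp
    have h2 : bil Y w (fun v => 1 - w v) = ∑ v, (1 - w v) * (∑ u, X u v * w u - t * ∑ u, w u) := by
      rw [hev, Finset.mul_sum, ← Finset.sum_sub_distrib]
      refine Finset.sum_congr rfl fun v _ => ?_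
      ring
    rw [← h2]
    linarith
  · intro H
    rw [hZ]
    set wH : V → ℝ := fun v => if v ∈ H then w v else 0 with hwH
    have h := hmin (fun v => 1 - wH v) (fun v => by
      simp only [hwH]; split_ifs <;> linarith [hw1 v]) (fun v => by
      simp only [hwH]; split_ifs <;> linarith [hw0 v])
    -- f(1 - wH) = f(1) - 2 B(1,wH) + f(wH)
    have hexp := bil_expand Y hY (fun _ : V => (1 : ℝ)) (fun v => - wH v)
    have h1 : (fun v => (1 : ℝ) + (- wH v)) = (fun v => 1 - wH v) := by
      funext v; ring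
    rw [h1] at hexp
    have hsumwH : ∑ v, wH v = ∑ v ∈ H, w v := by
      simp only [hwH, Finset.sum_ite_mem, Finset.univ_inter]
    have h2 : bil Y (fun _ : V => (1 : ℝ)) (fun v => - wH v)
        = - (∑ v ∈ H, w v * ∑ u, X u v) + t * (Fintype.card V) * ∑ v ∈ H, w v := by
      rw [hev]
      simp only [mul_one, Finset.sum_const, Finset.card_univ, nsmul_eq_mul, Finset.sum_neg_distrib,
        hsumwH]
      have : ∑ v, (∑ u, X u v) * -wH v = - ∑ v ∈ H, w v * ∑ u, X u v := by
        rw [← Finset.sum_neg_distrib]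
        rw [← Finset.sum_subset (Finset.subset_univ H)]
        · refine Finset.sum_congr rfl fun v hv => ?_
          simp only [hwH, hv, if_true]; ring
        · intro v _ hv
          simp only [hwH, hv, if_false]; ring
      rw [this]; ring
    have h3 : bil Y (fun v => - wH v) (fun v => - wH v)
        = ∑ v ∈ H, ∑ u ∈ H, X u v * w u * w v - t * (∑ v ∈ H, w v) ^ 2 := by
      rw [hev]
      simp only [Finset.sum_neg_distrib, hsumwH]
      have : ∑ v, (∑ u, X u v * -wH u) * -wH v = ∑ v ∈ H, ∑ u ∈ H, X u v * w u * w v := by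
        rw [← Finset.sum_subset (Finset.subset_univ H)]
        · refine Finset.sum_congr rfl fun v hv => ?_
          rw [Finset.sum_mul, ← Finset.sum_subset (Finset.subset_univ H)]
          · refine Finset.sum_congr rfl fun u hu => ?_
            simp only [hwH, hv, hu, if_true]; ring
          · intro u _ hu
            simp only [hwH, hu, if_false]; ring
        · intro v _ hv
          simp only [hwH, hv, if_false]; ring
      rw [this]; ring
    rw [h2, h3] at hexp
    linarith

end Pool.Agent.Lib.MP_d78df2_co
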