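import Pool.Agent.Lib.MP_d78df2_co.Minimizer
import Pool.Agent.Lib.MP_d78df2_co.MainLemma

/-!
Assembly of the upper bound.
-/

namespace Pool.Agent.Lib.MP_d78df2_co

open Finset

theorem numeric_M {r : ℕ} (hr : 100000000000000 ≤ r) (W n : ℝ) (hn : 0 < n)
    (hW : W ^ 2 < 64 * (1 / ((r : ℝ) - 1)) * n ^ 2) : (Mr r : ℝ) * W < 5 * n := by
  have hrR : (100000000000000 : ℝ) ≤ r := by exact_mod_cast hr
  set s := Real.sqrt r with hs
  have hs2 : s ^ 2 = r := Real.sq_sqrt (by positivity)
  have hs7 : (10000000 : ℝ) ≤ s := Real.le_sqrt_of_sq_le (le_trans (by norm_num) hrR)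
  have hM := Mr_upper r
  rw [← hs] at hM
  have hM0 : (0 : ℝ) ≤ Mr r := Nat.cast_nonneg _
  have hM1 : (Mr r : ℝ) ≤ 0.51 * s := by linarith
  have hM2 : (Mr r : ℝ) ^ 2 ≤ 0.2601 * r := by
    calc (Mr r : ℝ) ^ 2 ≤ (0.51 * s) ^ 2 := pow_le_pow_left₀ hM0 hM1 2
      _ = 0.2601 * r := by rw [← hs2]; ring
  have ht1 : (r : ℝ) * (1 / ((r : ℝ) - 1)) ≤ 1.01 := by
    rw [mul_one_div, div_le_iff₀ (by linarith)]
    linarith
  have ht0 : 0 ≤ 1 / ((r : ℝ) - 1) := by
    apply div_nonneg (by norm_num); linarith
  have h1 : ((Mr r : ℝ) * W) ^ 2 < (5 * n) ^ 2 := by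
    have hMpos : 0 < (Mr r : ℝ) := by
      have := Mr_big hr
      have h2 : 0 < Mr r := by omega
      exact_mod_cast h2
    calc ((Mr r : ℝ) * W) ^ 2 = (Mr r : ℝ) ^ 2 * W ^ 2 := by ring
      _ < (Mr r : ℝ) ^ 2 * (64 * (1 / ((r : ℝ) - 1)) * n ^ 2) :=
          mul_lt_mul_of_pos_left hW (by positivity)
      _ ≤ (0.2601 * r) * (64 * (1 / ((r : ℝ) - 1)) * n ^ 2) :=
          mul_le_mul_of_nonneg_right hM2 (by positivity)
      _ = (0.2601 * 64) * (r * (1 / ((r : ℝ) - 1))) * n ^ 2 := by ring
      _ ≤ (0.2601 * 64) * 1.01 * n ^ 2 := by gcongr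
      _ ≤ (5 * n) ^ 2 := by
          rw [mul_pow]
          apply mul_le_mul_of_nonneg_right _ (by positivity)
          norm_num
  exact lt_of_pow_lt_pow_left₀ 2 (by positivity) h1

theorem upper {V C : Type*} [Fintype V] [DecidableEq V] [Fintype C] [DecidableEq C]
    {r : ℕ} (hr : 100000000000000 ≤ r)
    (hC : Fintype.card C = r.choose 2) (miss : C → V → V → Prop)
    [∀ c u v, Decidable (miss c u v)]
    (hmsymm : ∀ c u v, miss c u v → miss c v u)
    (hcount : ∀ c, ∑ u, ∑ v, (if miss c u v then (1 : ℝ) else 0)
      < 1 / ((r : ℝ) - 1) * (Fintype.card V : ℝ) ^ 2) :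
    ∃ (p : Fin r → V) (φ : Pr r → C), Function.Injective φ ∧
      ∀ q, ¬ miss (φ q) (p q.1.1) (p q.1.2) := by
  classical
  have hrR : (100000000000000 : ℝ) ≤ r := by exact_mod_cast hr
  set t : ℝ := 1 / ((r : ℝ) - 1) with ht
  have htpos : 0 < t := by
    apply div_pos (by norm_num); linarith
  have htsmall : t ≤ 1 / 10000000000000 := by
    apply one_div_le_one_div_of_le (by norm_num)
    linarith
  set X : V → V → ℝ := fun u v => ((univ.filter fun c => miss c u v).card : ℝ) / (r.choose 2 : ℕ)
    with hXdef
  have hX : ∀ u v, X u v = ((univ.filter fun c => miss c u v).card : ℝ) / (r.choose 2 : ℕ) :=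
    fun _ _ => rfl
  have hX0 : ∀ u v, 0 ≤ X u v := fun u v => by rw [hX]; positivity
  have hsymm : ∀ u v, X u v = X v u := by
    intro u v
    rw [hX, hX]
    congr 2
    refine congrArg Finset.card ?_
    ext c
    simp only [mem_filter, mem_univ, true_and]
    exact ⟨hmsymm c u v, hmsymm c v u⟩
  have hkpos : 0 < r.choose 2 := Nat.choose_pos (by omega)
  have hkR : (0 : ℝ) < (r.choose 2 : ℕ) := by exact_mod_cast hkpos
  have hCne : Nonempty C := by
    rw [← Fintype.card_pos_iff, hC]; exact hkpos
  set n : ℝ := (Fintype.card V : ℝ) with hn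
  have hnpos : 0 < n := by
    obtain ⟨c⟩ := hCne
    have h1 := hcount c
    have h2 : 0 ≤ ∑ u, ∑ v, (if miss c u v then (1 : ℝ) else 0) :=
      Finset.sum_nonneg fun u _ => Finset.sum_nonneg fun v _ => by split_ifs <;> norm_num
    have h3 : 0 < t * n ^ 2 := lt_of_le_of_lt h2 h1
    have h4 : n ≠ 0 := by
      intro h
      rw [h] at h3
      norm_num at h3
    exact lt_of_le_of_ne (by rw [hn]; exact Nat.cast_nonneg _) (Ne.symm h4)
  have hXsum : ∑ u, ∑ v, X u v < t * n ^ 2 := by
    have h1 : ∑ u, ∑ v, X u v = (∑ c : C, ∑ u, ∑ v, (if miss c u v then (1 : ℝ) else 0))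
        / (r.choose 2 : ℕ) := by
      have h2 : ∀ u v, X u v = (∑ c : C, (if miss c u v then (1 : ℝ) else 0)) / (r.choose 2 : ℕ) := by
        intro u v
        rw [hX, Finset.sum_boole]
      simp only [h2]
      simp only [← Finset.sum_div]
      congr 1
      rw [Finset.sum_comm]
      rw [Finset.sum_comm (s := (univ : Finset C))]
      rw [Finset.sum_comm]
      refine Finset.sum_congr rfl fun u _ => ?_
      rw [Finset.sum_comm]
    rw [h1, div_lt_iff₀ hkR]
    have h3 : ∑ c : C, ∑ u, ∑ v, (if miss c u v then (1 : ℝ) else 0) < ∑ c : C, t * n ^ 2 :=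
      Finset.sum_lt_sum_of_nonempty Finset.univ_nonempty (fun c _ => hcount c)
    rw [Finset.sum_const, Finset.card_univ, hC, nsmul_eq_mul] at h3
    linarith
  obtain ⟨w, hw0, hw1, hWpos, hZpos, hA, hB, hCC, hDD⟩ := exists_minimizer X hsymm t hXsum
  set W : ℝ := ∑ v, w v with hWdef
  set Z : ℝ := t * W ^ 2 - ∑ u, ∑ v, X u v * w u * w v with hZdef
  have hWn : W ≤ n := by
    rw [hWdef, hn]
    have : ∑ v, w v ≤ ∑ v : V, (1 : ℝ) := Finset.sum_le_sum fun v _ => hw1 v
    rw [Finset.sum_const, Finset.card_univ, nsmul_eq_mul, mul_one] at this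
    exact this
  set Mv : V → ℝ := fun v => ∑ u, X u v * w u with hMv
  have hMv0 : ∀ v, 0 ≤ Mv v := fun v => Finset.sum_nonneg fun u _ => mul_nonneg (hX0 u v) (hw0 u)
  have hE : ∑ v, w v * (t * W - Mv v) = Z := by
    rw [hZdef]
    have h1 : ∑ v, w v * (t * W - Mv v) = (∑ v, w v) * (t * W) - ∑ v, w v * Mv v := by
      rw [Finset.sum_mul, ← Finset.sum_sub_distrib]
      refine Finset.sum_congr rfl fun v _ => ?_
      ring
    have h2 : ∑ u, ∑ v, X u v * w u * w v = ∑ v, w v * Mv v := by
      rw [Finset.sum_comm]
      refine Finset.sum_congr rfl fun v _ => ?_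
      rw [hMv]
      simp only
      rw [Finset.mul_sum]
      refine Finset.sum_congr rfl fun u _ => ?_
      ring
    rw [h1, h2, ← hWdef]; ring
  have hXww : ∑ u, ∑ v, X u v * w u * w v = t * W ^ 2 - Z := by rw [hZdef]; ring
  rcases le_or_gt (64 * t * n ^ 2) (W ^ 2) with hcase | hcase
  · -- Case 1
    obtain ⟨c1, hc1w, hc1⟩ : ∃ v, 0 < w v ∧ Mv v < t * W := by
      by_contra hcon
      push Not at hcon
      have : ∑ v, w v * (t * W - Mv v) ≤ 0 := by
        apply Finset.sum_nonpos
        intro v _
        rcases (hw0 v).lt_or_eq with h | h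
        · exact mul_nonpos_of_nonneg_of_nonpos h.le (by linarith [hcon v h])
        · rw [← h]; simp
      linarith
    have hρsum : ∑ v, w v / W = 1 := by
      rw [← Finset.sum_div, ← hWdef, div_self hWpos.ne']
    refine main_lemma hr hC miss hmsymm X hX w hw0 hA 1 (by norm_num)
      (fun v => if v = c1 then 1 else 0) (fun v => w v / W)
      (fun v => by split_ifs <;> norm_num) (fun v => div_nonneg (hw0 v) hWpos.le)
      (by simp) hρsum (t * W - Mv c1) 0 le_rfl (by
        push_cast
        linarith) ?_ ?_ ?_ ?_ ?_ (Or.inl le_rfl)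
    · intro v hv
      have hvc : v = c1 := by
        by_contra hne
        simp [hne] at hv
      subst hvc
      have h9 : ∑ u, X u v * w u = Mv v := rfl
      rw [h9, ← hWdef]
      linarith
    · intro v hv
      have h1 : 0 < w v := by
        by_contra hcon
        have h2 : w v = 0 := le_antisymm (not_lt.1 hcon) (hw0 v)
        rw [h2] at hv
        simp at hv
      have := hA v h1
      linarith
    · intro c
      have h1 : ∑ u, ∑ v, w u / W * (w v / W) * (if miss c u v then (1 : ℝ) else 0)
          ≤ (∑ u, ∑ v, (if miss c u v then (1 : ℝ) else 0)) / W ^ 2 := by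
        rw [Finset.sum_div]
        refine Finset.sum_le_sum fun u _ => ?_
        rw [Finset.sum_div]
        refine Finset.sum_le_sum fun v _ => ?_
        rw [le_div_iff₀ (by positivity)]
        have h2 : w u / W * (w v / W) * (if miss c u v then (1 : ℝ) else 0) * W ^ 2
            = w u * w v * (if miss c u v then (1 : ℝ) else 0) := by
          field_simp
        rw [h2]
        have h3 : w u * w v ≤ 1 := mul_le_one₀ (hw1 u) (hw0 v) (hw1 v)
        have h4 : (0 : ℝ) ≤ (if miss c u v then (1 : ℝ) else 0) := by split_ifs <;> norm_num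
        nlinarith
      refine le_trans h1 ?_
      rw [div_le_iff₀ (by positivity)]
      have := hcount c
      linarith
    · have h1 : ∑ u, ∑ v, w u / W * (w v / W) * X u v = (t * W ^ 2 - Z) / W ^ 2 := by
        rw [← hXww, Finset.sum_div]
        refine Finset.sum_congr rfl fun u _ => ?_
        rw [Finset.sum_div]
        refine Finset.sum_congr rfl fun v _ => ?_
        field_simp
      rw [h1, div_le_iff₀ (by positivity)]
      have : 0 < t * W ^ 2 := by positivity
      linarith
    · have h1 : ∑ u, ∑ v, (if u = c1 then (1 : ℝ) else 0) * (w v / W) * X u v = Mv c1 / W := by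
        rw [Finset.sum_eq_single c1]
        · rw [hMv]
          simp only [if_true]
          rw [Finset.sum_div]
          refine Finset.sum_congr rfl fun v _ => ?_
          rw [hsymm c1 v]
          ring
        · intro u _ hu
          apply Finset.sum_eq_zero
          intro v _
          rw [if_neg hu]; ring
        · intro h; exact absurd (Finset.mem_univ _) h
      rw [h1, div_le_iff₀ hWpos]
      have : 0 < t * W := by positivity
      linarith
  · -- Case 2
    have hMW : (Mr r : ℝ) * W < 5 * n := numeric_M hr W n hnpos hcase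
    set Vg : Finset V := univ.filter fun v => Mv v - t * W ≤ 4 * Z / n with hVg
    have hVgcard : 3 * n / 4 ≤ (Vg.card : ℝ) := by
      have h1 : ∀ v, 0 ≤ (1 - w v) * (Mv v - t * W) := by
        intro v
        rcases (hw1 v).lt_or_eq with h | h
        · exact mul_nonneg (by linarith) (by linarith [hB v h])
        · rw [h]; simp
      have h2 : ∀ v ∈ Vgᶜ, 4 * Z / n ≤ (1 - w v) * (Mv v - t * W) := by
        intro v hv
        rw [mem_compl, hVg, mem_filter] at hv
        have hv' : 4 * Z / n < Mv v - t * W := by
          by_contra hcon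
          exact hv ⟨mem_univ _, not_lt.1 hcon⟩
        have h3 : 0 < 4 * Z / n := by positivity
        have h4 : w v = 0 := by
          by_contra hne
          have h5 : 0 < w v := lt_of_le_of_ne (hw0 v) (Ne.symm hne)
          have h6 := hA v h5
          have h7 : Mv v ≤ t * W := h6
          linarith
        rw [h4]
        linarith
      have h3 : ((Vgᶜ).card : ℝ) * (4 * Z / n) ≤ Z := by
        have h4 : ∑ v ∈ Vgᶜ, (4 * Z / n) ≤ ∑ v ∈ Vgᶜ, (1 - w v) * (Mv v - t * W) :=
          Finset.sum_le_sum h2
        have h5 : ∑ v ∈ Vgᶜ, (1 - w v) * (Mv v - t * W) ≤ ∑ v, (1 - w v) * (Mv v - t * W) :=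
          Finset.sum_le_univ_sum_of_nonneg h1
        rw [Finset.sum_const, nsmul_eq_mul] at h4
        have h6 : ∑ v, (1 - w v) * (Mv v - t * W) ≤ Z := hCC
        linarith
      have h4 : ((Vgᶜ).card : ℝ) ≤ n / 4 := by
        have h5 : ((Vgᶜ).card : ℝ) * (4 * Z / n) = ((Vgᶜ).card : ℝ) * 4 / n * Z := by ring
        rw [h5] at h3
        have h6 : ((Vgᶜ).card : ℝ) * 4 / n ≤ 1 := by
          by_contra hcon
          push Not at hcon
          have : Z < ((Vgᶜ).card : ℝ) * 4 / n * Z := by
            calc Z = 1 * Z := by ring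
              _ < _ := mul_lt_mul_of_pos_right hcon hZpos
          linarith
        rw [div_le_one hnpos] at h6
        linarith
      have h5 : ((Vg.card : ℕ) : ℝ) + (Vgᶜ).card = n := by
        rw [hn]
        exact_mod_cast Finset.card_add_card_compl Vg
      linarith
    obtain ⟨g, hgdef⟩ : ∃ g : ℝ, g = (Vg.card : ℝ) := ⟨_, rfl⟩
    rw [← hgdef] at hVgcard
    have hVgpos : 0 < g := by
      have : 0 < 3 * n / 4 := by positivity
      linarith
    have hVgsq : 9 * n ^ 2 / 16 ≤ g ^ 2 := by
      calc 9 * n ^ 2 / 16 = (3 * n / 4) ^ 2 := by ring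
        _ ≤ _ := pow_le_pow_left₀ (by positivity) hVgcard 2
    set ρ : V → ℝ := fun v => if v ∈ Vg then 1 / g else 0 with hρ
    have hρ0 : ∀ v, 0 ≤ ρ v := by
      intro v; simp only [hρ]; split_ifs
      · positivity
      · exact le_rfl
    have hρle : ∀ v, ρ v ≤ 1 / g := by
      intro v; simp only [hρ]; split_ifs
      · exact le_rfl
      · positivity
    have hρ1 : ∑ v, ρ v = 1 := by
      simp only [hρ]
      rw [Finset.sum_ite_mem, Finset.univ_inter, Finset.sum_const, nsmul_eq_mul, ← hgdef]
      field_simp
    have hρρ : ∀ (y : V → V → ℝ), (∀ u v, 0 ≤ y u v) → ∑ u, ∑ v, y u v < t * n ^ 2 →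
        ∑ u, ∑ v, ρ u * ρ v * y u v ≤ 2 * t := by
      intro y hy0 hy
      have h1 : ∑ u, ∑ v, ρ u * ρ v * y u v ≤ (∑ u, ∑ v, y u v) / g ^ 2 := by
        rw [Finset.sum_div]
        refine Finset.sum_le_sum fun u _ => ?_
        rw [Finset.sum_div]
        refine Finset.sum_le_sum fun v _ => ?_
        have h2 : ρ u * ρ v ≤ 1 / g * (1 / g) :=
          mul_le_mul (hρle u) (hρle v) (hρ0 v) (by positivity)
        calc ρ u * ρ v * y u v ≤ (1 / g * (1 / g)) * y u v :=
              mul_le_mul_of_nonneg_right h2 (hy0 u v)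
          _ = y u v / g ^ 2 := by field_simp
      refine le_trans h1 ?_
      rw [div_le_iff₀ (by positivity)]
      have h3 : 2 * t * (9 * n ^ 2 / 16) ≤ 2 * t * g ^ 2 :=
        mul_le_mul_of_nonneg_left hVgsq (by positivity)
      have h4 : t * n ^ 2 ≤ 2 * t * (9 * n ^ 2 / 16) := by
        have : 0 ≤ t * n ^ 2 := by positivity
        linarith
      linarith
    -- the common end
    have key2 : ∀ (l : ℕ), l ≤ 640 → ∀ (σ : V → ℝ), (∀ v, 0 ≤ σ v) → ∑ v, σ v = 1 → ∀ (α : ℝ),
        160 * Z / W ≤ l * α → (∀ v, 0 < σ v → Mv v ≤ t * W - α) →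
        (∑ v, σ v * ∑ u, X u v ≤ 3.5 * t * n) →
        (l ≤ 1 ∨ ∑ u, ∑ v, σ u * σ v * X u v ≤ 320 * t) →
        ∃ (p : Fin r → V) (φ : Pr r → C), Function.Injective φ ∧
          ∀ q, ¬ miss (φ q) (p q.1.1) (p q.1.2) := by
      intro l hl σ hσ0 hσ1 α hα hσα hσavg hσσ
      refine main_lemma hr hC miss hmsymm X hX w hw0 hA l hl σ ρ hσ0 hρ0 hσ1 hρ1 α (4 * Z / n)
        (by positivity) ?_ hσα ?_ ?_ ?_ ?_ hσσ
      · refine lt_of_lt_of_le ?_ hα
        have h1 : 8 * (Mr r : ℝ) * (4 * Z / n) = 32 * ((Mr r : ℝ) * W) / (n * W) * Z := by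
          field_simp
          ring
        have h2 : 160 * Z / W = 32 * (5 * n) / (n * W) * Z := by
          field_simp
          ring
        rw [h1, h2]
        apply mul_lt_mul_of_pos_right _ hZpos
        apply div_lt_div_of_pos_right _ (by positivity)
        linarith
      · intro v hv
        have h1 : v ∈ Vg := by
          by_contra hcon
          simp only [hρ, hcon, if_false] at hv
          exact lt_irrefl _ hv
        rw [hVg, mem_filter] at h1
        have h2 : Mv v ≤ t * W + 4 * Z / n := by linarith [h1.2]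
        exact h2
      · intro c
        refine le_trans (hρρ (fun u v => if miss c u v then (1 : ℝ) else 0)
          (fun u v => by split_ifs <;> norm_num) (hcount c)) ?_
        linarith
      · refine le_trans (hρρ X hX0 hXsum) ?_
        linarith
      · have h1 : ∑ u, ∑ v, σ u * ρ v * X u v ≤ (∑ u, σ u * ∑ v, X v u) / g := by
          rw [Finset.sum_div]
          refine Finset.sum_le_sum fun u _ => ?_
          rw [Finset.mul_sum, Finset.sum_div]
          refine Finset.sum_le_sum fun v _ => ?_
          rw [hsymm v u]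
          calc σ u * ρ v * X u v ≤ σ u * (1 / g) * X u v := by
                apply mul_le_mul_of_nonneg_right _ (hX0 u v)
                exact mul_le_mul_of_nonneg_left (hρle v) (hσ0 u)
            _ = σ u * X u v / g := by ring
        refine le_trans h1 ?_
        rw [div_le_iff₀ hVgpos]
        have h2 : 5 * t * (3 * n / 4) ≤ 5 * t * g :=
          mul_le_mul_of_nonneg_left hVgcard (by positivity)
        have h3 : 3.5 * t * n ≤ 5 * t * (3 * n / 4) := by
          have : 0 ≤ t * n := by positivity
          linarith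
        linarith
    -- average of compensators
    have havg : ∀ H : Finset V, (∀ v ∈ H, 0 < w v) → 0 < ∑ v ∈ H, w v →
        Z ≤ 4 * t * W * ∑ v ∈ H, w v →
        (∑ v ∈ H, ∑ u ∈ H, X u v * w u * w v ≤ t * W * ∑ v ∈ H, w v) ∧
        (∑ v ∈ H, w v * ∑ u, X u v ≤ 3.5 * t * n * ∑ v ∈ H, w v) := by
      intro H hH hh hZh
      set h := ∑ v ∈ H, w v with hhdef
      have h1 : ∑ v ∈ H, ∑ u ∈ H, X u v * w u * w v ≤ t * W * h := by
        have h2 : ∀ v ∈ H, ∑ u ∈ H, X u v * w u * w v ≤ (t * W) * w v := by
          intro v hv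
          rw [← Finset.sum_mul]
          apply mul_le_mul_of_nonneg_right _ (hw0 v)
          refine le_trans ?_ (hA v (hH v hv))
          exact Finset.sum_le_univ_sum_of_nonneg fun u => mul_nonneg (hX0 u v) (hw0 u)
        refine le_trans (Finset.sum_le_sum h2) ?_
        rw [← Finset.mul_sum]
      refine ⟨h1, ?_⟩
      have h2 := hDD H
      have h3 : 0 ≤ t * h ^ 2 := by positivity
      have h4 : t * W * h ≤ t * n * h := by gcongr
      have h5 : 2 * ∑ v ∈ H, w v * ∑ u, X u v ≤ Z
          + (∑ v ∈ H, ∑ u ∈ H, X u v * w u * w v - t * h ^ 2) + 2 * t * n * h := h2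
      have h6 : 4 * t * W * h = 4 * (t * W * h) := by ring
      have h7 : 2 * t * n * h = 2 * (t * n * h) := by ring
      have h8 : 3.5 * t * n * h = 3.5 * (t * n * h) := by ring
      rw [h8]
      rw [h6] at hZh
      rw [h7] at h5
      linarith
    set D : V → ℝ := fun v => t * W - Mv v with hD
    have hDnn : ∀ v, 0 < w v → 0 ≤ D v := fun v hv => by
      have := hA v hv
      have h2 : Mv v ≤ t * W := this
      simp only [hD]; linarith
    have hDle : ∀ v, D v ≤ t * W := fun v => by simp only [hD]; linarith [hMv0 v]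
    have hwD : ∀ v, 0 ≤ w v * D v := by
      intro v
      rcases (hw0 v).lt_or_eq with h | h
      · exact mul_nonneg h.le (hDnn v h)
      · rw [← h]; simp
    have hED : ∑ v, w v * D v = Z := hE
    set H1 : Finset V := univ.filter fun v => 0 < w v ∧ 160 * Z / W ≤ D v with hH1
    have hsumle : ∀ H : Finset V, ∑ v ∈ H, w v * D v ≤ t * W * ∑ v ∈ H, w v := by
      intro H
      rw [Finset.mul_sum]
      refine Finset.sum_le_sum fun v _ => ?_
      calc w v * D v ≤ w v * (t * W) := mul_le_mul_of_nonneg_left (hDle v) (hw0 v)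
        _ = t * W * w v := by ring
    rcases le_or_gt (Z / 4) (∑ v ∈ H1, w v * D v) with h2A | h2B
    · -- Case 2A
      have h1 : Z ≤ 4 * t * W * ∑ v ∈ H1, w v := by
        have := hsumle H1
        have h3 : 4 * t * W * ∑ v ∈ H1, w v = 4 * (t * W * ∑ v ∈ H1, w v) := by ring
        rw [h3]; linarith
      have hh : 0 < ∑ v ∈ H1, w v := by
        by_contra hcon
        push Not at hcon
        have : 4 * t * W * ∑ v ∈ H1, w v ≤ 0 :=
          mul_nonpos_of_nonneg_of_nonpos (by positivity) hcon
        linarith
      obtain ⟨_, h3⟩ := havg H1 (fun v hv => by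
        rw [hH1, mem_filter] at hv; exact hv.2.1) hh h1
      obtain ⟨c, hcH, hc⟩ : ∃ c ∈ H1, ∑ u, X u c ≤ 3.5 * t * n := by
        by_contra hcon
        push Not at hcon
        have : ∑ v ∈ H1, 3.5 * t * n * w v < ∑ v ∈ H1, w v * ∑ u, X u v := by
          apply Finset.sum_lt_sum_of_nonempty
          · by_contra hne
            rw [Finset.not_nonempty_iff_eq_empty] at hne
            rw [hne] at hh
            simp at hh
          · intro v hv
            have hv2 := hcon v hv
            rw [hH1, mem_filter] at hv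
            calc 3.5 * t * n * w v = w v * (3.5 * t * n) := by ring
              _ < _ := mul_lt_mul_of_pos_left hv2 hv.2.1
        rw [← Finset.mul_sum] at this
        linarith
      rw [hH1, mem_filter] at hcH
      refine key2 1 (by norm_num) (fun v => if v = c then 1 else 0)
        (fun v => by split_ifs <;> norm_num) (by simp) (160 * Z / W) (by push_cast; linarith)
        ?_ ?_ (Or.inl le_rfl)
      · intro v hv
        have hvc : v = c := by
          by_contra hne
          simp [hne] at hv
        subst hvc
        have := hcH.2.2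
        simp only [hD] at this
        linarith
      · simp only [ite_mul, one_mul, zero_mul, Finset.sum_ite_eq', Finset.mem_univ, if_true]
        exact hc
    · -- Case 2B
      set H2 : Finset V := univ.filter fun v => 0 < w v ∧ Z / (4 * W) ≤ D v ∧ D v < 160 * Z / W
        with hH2
      have hhalf : Z / 2 ≤ ∑ v ∈ H2, w v * D v := by
        have h1 : ∀ v, w v * D v ≤ (if v ∈ H1 then w v * D v else 0)
            + (if v ∈ H2 then w v * D v else 0) + w v * (Z / (4 * W)) := by
          intro v
          have hnn : 0 ≤ w v * (Z / (4 * W)) := mul_nonneg (hw0 v) (by positivity)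
          have hnn2 := hwD v
          by_cases hv1 : v ∈ H1
          · simp only [hv1, if_true]
            split_ifs <;> linarith
          · by_cases hv2 : v ∈ H2
            · simp only [hv1, hv2, if_true, if_false]
              linarith
            · simp only [hv1, hv2, if_false]
              rcases (hw0 v).lt_or_eq with hwv | hwv
              · rw [hH1, mem_filter] at hv1
                rw [hH2, mem_filter] at hv2
                have h3 : D v < 160 * Z / W := by
                  by_contra hcon
                  exact hv1 ⟨mem_univ _, hwv, not_lt.1 hcon⟩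
                have h4 : D v ≤ Z / (4 * W) := by
                  by_contra hcon
                  exact hv2 ⟨mem_univ _, hwv, (not_le.1 hcon).le, h3⟩
                have := mul_le_mul_of_nonneg_left h4 hwv.le
                linarith
              · rw [← hwv]; simp
        have h2 := Finset.sum_le_sum (s := (univ : Finset V)) fun v _ => h1 v
        rw [hED, Finset.sum_add_distrib, Finset.sum_add_distrib, Finset.sum_ite_mem,
          Finset.sum_ite_mem, Finset.univ_inter, Finset.univ_inter, ← Finset.sum_mul, ← hWdef] at h2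
        have h3 : W * (Z / (4 * W)) = Z / 4 := by field_simp
        rw [h3] at h2
        linarith
      set h := ∑ v ∈ H2, w v with hhdef
      have h1 : Z ≤ 2 * (t * W * h) := by
        have := hsumle H2
        rw [← hhdef] at this
        linarith
      have hh : 0 < h := by
        by_contra hcon
        push Not at hcon
        have : t * W * h ≤ 0 :=
          mul_nonpos_of_nonneg_of_nonpos (by positivity) hcon
        linarith
      have hhW : W / 320 ≤ h := by
        have h2 : ∑ v ∈ H2, w v * D v ≤ h * (160 * Z / W) := by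
          rw [hhdef, Finset.sum_mul]
          refine Finset.sum_le_sum fun v hv => ?_
          rw [hH2, mem_filter] at hv
          exact mul_le_mul_of_nonneg_left hv.2.2.2.le (hw0 v)
        have h3 : Z / 2 ≤ h * (160 * Z / W) := le_trans hhalf h2
        have h4 : h * (160 * Z / W) = (160 * h / W) * Z := by ring
        rw [h4] at h3
        have h5 : 1 / 2 ≤ 160 * h / W := by
          by_contra hcon
          push Not at hcon
          have := mul_lt_mul_of_pos_right hcon hZpos
          linarith
        rw [le_div_iff₀ hWpos] at h5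
        linarith
      have hZh : Z ≤ 4 * t * W * h := by
        have : 0 ≤ t * W * h := by positivity
        have h3 : 4 * t * W * h = 4 * (t * W * h) := by ring
        rw [h3]; linarith
      obtain ⟨h3, h4⟩ := havg H2 (fun v hv => by
        rw [hH2, mem_filter] at hv; exact hv.2.1) hh hZh
      rw [← hhdef] at h3 h4
      refine key2 640 le_rfl (fun v => if v ∈ H2 then w v / h else 0) ?_ ?_ (Z / (4 * W)) ?_ ?_ ?_
        (Or.inr ?_)
      · intro v
        split_ifs
        · exact div_nonneg (hw0 v) hh.le
        · exact le_rfl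
      · rw [Finset.sum_ite_mem, Finset.univ_inter, ← Finset.sum_div, ← hhdef, div_self hh.ne']
      · apply le_of_eq
        push_cast
        field_simp
        ring
      · intro v hv
        have h1 : v ∈ H2 := by
          by_contra hcon
          simp only [hcon, if_false] at hv
          exact lt_irrefl _ hv
        rw [hH2, mem_filter] at h1
        have h5 := h1.2.2.1
        simp only [hD] at h5
        linarith
      · have h5 : ∑ v, (if v ∈ H2 then w v / h else 0) * ∑ u, X u v
            = (∑ v ∈ H2, w v * ∑ u, X u v) / h := by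
          simp only [ite_mul, zero_mul]
          rw [Finset.sum_ite_mem, Finset.univ_inter, Finset.sum_div]
          refine Finset.sum_congr rfl fun v _ => ?_
          ring
        rw [h5, div_le_iff₀ hh]
        exact h4
      · have h5 : ∑ u, ∑ v, (if u ∈ H2 then w u / h else 0) * (if v ∈ H2 then w v / h else 0) * X u v
            = (∑ v ∈ H2, ∑ u ∈ H2, X u v * w u * w v) / h ^ 2 := by
          have h6 : ∀ u, ∑ v, (if u ∈ H2 then w u / h else 0) *
              (if v ∈ H2 then w v / h else 0) * X u v
              = (if u ∈ H2 then ∑ v ∈ H2, X u v * w u * w v / h ^ 2 else 0) := by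
            intro u
            split_ifs with hu
            · simp only [mul_ite, ite_mul, mul_zero, zero_mul]
              rw [Finset.sum_ite_mem, Finset.univ_inter]
              refine Finset.sum_congr rfl fun v _ => ?_
              field_simp
            · simp
          simp only [h6]
          rw [Finset.sum_ite_mem, Finset.univ_inter, Finset.sum_comm, Finset.sum_div]
          refine Finset.sum_congr rfl fun v _ => ?_
          rw [Finset.sum_div]
        rw [h5, div_le_iff₀ (by positivity)]
        have h7 : t * W * h ≤ t * (320 * h) * h := by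
          apply mul_le_mul_of_nonneg_right _ hh.le
          apply mul_le_mul_of_nonneg_left _ htpos.le
          linarith
        have h8 : t * (320 * h) * h = 320 * t * h ^ 2 := by ring
        linarith

end Pool.Agent.Lib.MP_d78df2_co
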